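import Pool.Agent.helper20.MPN.Defs

set_option autoImplicit false

/-!
# MPN-R: Rankin's trick

PROOFS. Put `η = 1 / log w`. For `p ∈ P`, `p ^ η = exp (t)` with `t = log p / log w ∈ [0, 1]`, so
`p ^ η ≤ 1 + 2 t` (convexity of `exp` on `[0, 1]`, `e - 1 ≤ 2`).
All subsets: `∑_{S ⊆ P} ∏_{p ∈ S} h p = ∏_{p ∈ P} (1 + h p)` (`Finset.prod_one_add` /
`Finset.prod_add`). For the sets with `∏_{p ∈ S} p > w ^ s`:
`1 ≤ (∏_{p ∈ S} p / w ^ s) ^ η = exp (-s) ∏_{p ∈ S} p ^ η`, so their sum is at most
`exp (-s) ∏_{p ∈ P} (1 + h p * p ^ η)` and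
`1 + h p * p ^ η ≤ 1 + h p + 2 t h p ≤ (1 + h p) (1 + 2 t h p) ≤ (1 + h p) exp (2 t h p)`, and
`∏ exp (2 t h p) = exp (2 ∑ h p log p / log w) ≤ exp (2 B)`.
As `exp (2 B - s) ≤ exp (-1) ≤ 1 / 2` the tail is at most one half of the whole product.
-/

namespace Pool.Agent.helper20.MPN

open Finset

theorem R_exp_le {t : ℝ} (h0 : 0 ≤ t) (h1 : t ≤ 1) : Real.exp t ≤ 1 + 2 * t := by
  have h := convexOn_exp.2 (Set.mem_univ (0 : ℝ)) (Set.mem_univ (1 : ℝ)) (sub_nonneg.2 h1) h0
    (by ring)
  simp only [smul_eq_mul, mul_zero, mul_one, zero_add, Real.exp_zero] at h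
  have h3 : Real.exp 1 ≤ 3 := by
    have := Real.exp_one_lt_d9
    linarith
  nlinarith

theorem R_factor {t x : ℝ} (h0 : 0 ≤ t) (h1 : t ≤ 1) (hx : 0 ≤ x) :
    1 + x * Real.exp t ≤ (1 + x) * Real.exp (2 * (x * t)) := by
  have ha := R_exp_le h0 h1
  have hb : 1 + 2 * (x * t) ≤ Real.exp (2 * (x * t)) := by
    have := Real.add_one_le_exp (2 * (x * t))
    linarith
  have hc : x * Real.exp t ≤ x * (1 + 2 * t) := mul_le_mul_of_nonneg_left ha hx
  have hd : (1 + x) * (1 + 2 * (x * t)) ≤ (1 + x) * Real.exp (2 * (x * t)) :=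
    mul_le_mul_of_nonneg_left hb (by linarith)
  have he : 0 ≤ x * (x * t) := by positivity
  nlinarith

theorem rankin (P : Finset ℕ) (hP : ∀ p ∈ P, p.Prime) (h : ℕ → ℝ) (hh : ∀ p ∈ P, 0 ≤ h p)
    (w : ℕ) (hw : 2 ≤ w) (hPw : ∀ p ∈ P, p ≤ w) (B : ℝ)
    (hs : ∑ p ∈ P, h p * Real.log p ≤ B * Real.log w) (s : ℕ) (hsB : 2 * B + 1 ≤ s) :
    (1 / 2) * ∏ p ∈ P, (1 + h p) ≤
      ∑ S ∈ P.powerset.filter (fun S => ∏ p ∈ S, p ≤ w ^ s), ∏ p ∈ S, h p := by
  have hlw : 0 < Real.log w := Real.log_pos (by exact_mod_cast hw)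
  set t : ℕ → ℝ := fun p => Real.log p / Real.log w with ht
  have ht0 : ∀ p ∈ P, 0 ≤ t p := fun p hp =>
    div_nonneg (Real.log_nonneg (by exact_mod_cast (hP p hp).one_le)) hlw.le
  have ht1 : ∀ p ∈ P, t p ≤ 1 := by
    intro p hp
    rw [ht]
    simp only
    rw [div_le_one hlw]
    exact Real.log_le_log (by exact_mod_cast (hP p hp).pos) (by exact_mod_cast hPw p hp)
  have htot : ∏ p ∈ P, (1 + h p) = ∑ S ∈ P.powerset, ∏ p ∈ S, h p := Finset.prod_one_add P
  have hpos : 0 ≤ ∏ p ∈ P, (1 + h p) :=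
    Finset.prod_nonneg fun p hp => by linarith [hh p hp]
  have hsplit := Finset.sum_filter_add_sum_filter_not P.powerset
    (fun S => ∏ p ∈ S, p ≤ w ^ s) (fun S => ∏ p ∈ S, h p)
  have htail : ∑ S ∈ P.powerset.filter (fun S => ¬ ∏ p ∈ S, p ≤ w ^ s), ∏ p ∈ S, h p ≤
      (1 / 2) * ∏ p ∈ P, (1 + h p) := by
    calc ∑ S ∈ P.powerset.filter (fun S => ¬ ∏ p ∈ S, p ≤ w ^ s), ∏ p ∈ S, h p
        ≤ ∑ S ∈ P.powerset.filter (fun S => ¬ ∏ p ∈ S, p ≤ w ^ s),
            Real.exp (-s) * ∏ p ∈ S, (h p * Real.exp (t p)) := by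
          apply Finset.sum_le_sum
          intro S hS
          rw [Finset.mem_filter, Finset.mem_powerset, not_le] at hS
          obtain ⟨hSP, hS⟩ := hS
          have h1 : (s : ℝ) * Real.log w ≤ ∑ p ∈ S, Real.log p := by
            have hr : ((w : ℝ) ^ s) ≤ ∏ p ∈ S, (p : ℝ) := by
              have h2 : ((w ^ s : ℕ) : ℝ) ≤ ((∏ p ∈ S, p : ℕ) : ℝ) := by exact_mod_cast hS.le
              rw [Nat.cast_pow, Nat.cast_prod] at h2
              exact h2
            have hw0 : (0 : ℝ) < w := by positivity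
            have h3 := Real.log_le_log (by positivity) hr
            rw [Real.log_pow, Real.log_prod] at h3
            · exact h3
            · intro p hp
              have := (hP p (hSP hp)).pos
              positivity
          have h2 : (s : ℝ) ≤ ∑ p ∈ S, t p := by
            rw [ht]
            simp only
            rw [← Finset.sum_div, le_div_iff₀ hlw]
            exact h1
          have h3 : 1 ≤ Real.exp (-s) * ∏ p ∈ S, Real.exp (t p) := by
            rw [← Real.exp_sum, ← Real.exp_add]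
            apply Real.one_le_exp
            linarith
          have h4 : 0 ≤ ∏ p ∈ S, h p := Finset.prod_nonneg fun p hp => hh p (hSP hp)
          rw [Finset.prod_mul_distrib]
          nlinarith [mul_le_mul_of_nonneg_left h3 h4]
      _ ≤ ∑ S ∈ P.powerset, Real.exp (-s) * ∏ p ∈ S, (h p * Real.exp (t p)) := by
          apply Finset.sum_le_sum_of_subset_of_nonneg (Finset.filter_subset _ _)
          intro S hS _
          rw [Finset.mem_powerset] at hS
          exact mul_nonneg (Real.exp_pos _).le (Finset.prod_nonneg fun p hp =>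
            mul_nonneg (hh p (hS hp)) (Real.exp_pos _).le)
      _ = Real.exp (-s) * ∏ p ∈ P, (1 + h p * Real.exp (t p)) := by
          rw [← Finset.mul_sum, ← Finset.prod_one_add]
      _ ≤ Real.exp (-s) * ∏ p ∈ P, ((1 + h p) * Real.exp (2 * (h p * t p))) := by
          apply mul_le_mul_of_nonneg_left _ (Real.exp_pos _).le
          apply Finset.prod_le_prod
          · intro p hp
            have := mul_nonneg (hh p hp) (Real.exp_pos (t p)).le
            linarith
          · intro p hp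
            exact R_factor (ht0 p hp) (ht1 p hp) (hh p hp)
      _ = Real.exp (-s + ∑ p ∈ P, 2 * (h p * t p)) * ∏ p ∈ P, (1 + h p) := by
          rw [Finset.prod_mul_distrib, Real.exp_add, Real.exp_sum]
          ring
      _ ≤ (1 / 2) * ∏ p ∈ P, (1 + h p) := by
          apply mul_le_mul_of_nonneg_right _ hpos
          have h5 : ∑ p ∈ P, 2 * (h p * t p) ≤ 2 * B := by
            rw [← Finset.mul_sum]
            have h6 : ∑ p ∈ P, h p * t p = (∑ p ∈ P, h p * Real.log p) / Real.log w := by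
              rw [Finset.sum_div]
              apply Finset.sum_congr rfl
              intro p _
              rw [ht]
              ring
            rw [h6]
            have h7 : (∑ p ∈ P, h p * Real.log p) / Real.log w ≤ B := by
              rw [div_le_iff₀ hlw]
              exact hs
            linarith
          have h8 : Real.exp (-s + ∑ p ∈ P, 2 * (h p * t p)) ≤ Real.exp (-1) :=
            Real.exp_le_exp.2 (by linarith)
          have h9 : Real.exp (-1) ≤ 1 / 2 := by
            rw [Real.exp_neg, one_div]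
            apply inv_anti₀ (by norm_num)
            have := Real.add_one_le_exp (1 : ℝ)
            linarith
          linarith
  rw [htot] at htail ⊢
  linarith

end Pool.Agent.helper20.MPN
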