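import Pool.Agent.helper20.MPN.Defs

set_option autoImplicit false

/-!
# MPN-C: the roots of `1 + x + ... + x ^ (l - 1)` modulo `p`
-/

namespace Pool.Agent.helper20.MPN

open Finset

theorem C_cyc_mod (l x p : ℕ) : cyc l (x % p) ≡ cyc l x [MOD p] := by
  unfold cyc
  apply Nat.ModEq.sum
  intro i _
  exact (Nat.mod_modEq x p).pow i

theorem C_dvd_mod (l x p : ℕ) : p ∣ cyc l (x % p) ↔ p ∣ cyc l x :=
  (C_cyc_mod l x p).dvd_iff dvd_rfl

theorem C_cyc_zero {l : ℕ} (hl : 0 < l) : cyc l 0 = 1 := by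
  unfold cyc
  obtain ⟨m, rfl⟩ : ∃ m, l = m + 1 := ⟨l - 1, by omega⟩
  rw [Finset.sum_range_succ']
  simp

/-- the roots modulo `p` -/
def roots (l p : ℕ) : Finset ℕ := (range p).filter fun r => p ∣ cyc l r

theorem C_mem_roots_iff {l p : ℕ} (hl : l.Prime) (hp : p.Prime) (hpl : p % l = 1) (r : ℕ) :
    r ∈ roots l p ↔ r < p ∧ ∃ u : (ZMod p)ˣ, (u : ZMod p) = (r : ZMod p) ∧ orderOf u = l := by
  have _ := Fact.mk hp
  have _ := Fact.mk hl
  unfold roots
  rw [Finset.mem_filter, Finset.mem_range]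
  refine and_congr_right fun _ => ?_
  have h1 : p ∣ cyc l r ↔ (∑ i ∈ range l, (r : ZMod p) ^ i) = 0 := by
    rw [← ZMod.natCast_eq_zero_iff]
    unfold cyc
    push_cast
    rfl
  rw [h1]
  have hlp : ¬ (p ∣ l) := by
    intro h
    have h2 := Nat.le_of_dvd hl.pos h
    rcases h2.lt_or_eq with h3 | h3
    · rw [Nat.mod_eq_of_lt h3] at hpl
      exact hp.one_lt.ne' hpl
    · rw [h3, Nat.mod_self] at hpl
      omega
  constructor
  · intro h
    have h3 : (r : ZMod p) ^ l = 1 := by
      have h4 := geom_sum_mul (r : ZMod p) l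
      rw [h, zero_mul] at h4
      exact (sub_eq_zero.1 h4.symm)
    have hne : (r : ZMod p) ≠ 1 := by
      intro h5
      rw [h5] at h
      simp only [one_pow, Finset.sum_const, Finset.card_range, nsmul_eq_mul, mul_one] at h
      rw [ZMod.natCast_eq_zero_iff] at h
      exact hlp h
    have hu : IsUnit (r : ZMod p) := by
      apply IsUnit.of_pow_eq_one h3 hl.ne_zero
    refine ⟨hu.unit, rfl, ?_⟩
    apply orderOf_eq_prime
    · ext
      rw [Units.val_pow_eq_pow_val]
      exact h3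
    · intro h6
      apply hne
      have := congrArg Units.val h6
      exact this
  · rintro ⟨u, hu, ho⟩
    have h3 : (r : ZMod p) ^ l = 1 := by
      rw [← hu, ← Units.val_pow_eq_pow_val, ← ho, pow_orderOf_eq_one, Units.val_one]
    have hne : (r : ZMod p) - 1 ≠ 0 := by
      intro h5
      have h6 : u = 1 := by
        ext
        rw [hu]
        exact sub_eq_zero.1 h5
      rw [h6, orderOf_one] at ho
      exact hl.one_lt.ne ho
    have h4 := geom_sum_mul (r : ZMod p) l
    rw [h3, sub_self] at h4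
    exact (mul_eq_zero.1 h4).resolve_right hne

theorem C_card_roots {l p : ℕ} (hl : l.Prime) (hp : p.Prime) (hpl : p % l = 1) :
    (roots l p).card = l - 1 := by
  have _ := Fact.mk hp
  classical
  have hd : l ∣ Nat.card (ZMod p)ˣ := by
    rw [Nat.card_eq_fintype_card, ZMod.card_units p]
    exact (Nat.modEq_iff_dvd' hp.one_lt.le).1 (by
      unfold Nat.ModEq
      rw [hpl, Nat.mod_eq_of_lt hl.one_lt])
  have h1 : (Finset.univ.filter fun u : (ZMod p)ˣ => orderOf u = l).card = l.totient := by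
    have := IsCyclic.card_orderOf_eq_totient (α := (ZMod p)ˣ) (d := l)
      (by rwa [Nat.card_eq_fintype_card] at hd)
    convert this using 2
  rw [Nat.totient_prime hl] at h1
  rw [← h1]
  symm
  refine Finset.card_bij (fun u _ => (u : ZMod p).val) ?_ ?_ ?_
  · intro u hu
    rw [Finset.mem_filter] at hu
    rw [C_mem_roots_iff hl hp hpl]
    exact ⟨ZMod.val_lt _, u, by rw [ZMod.natCast_zmod_val], hu.2⟩
  · intro u _ v _ huv
    exact Units.ext (ZMod.val_injective p huv)
  · intro r hr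
    obtain ⟨h2, u, hu, ho⟩ := (C_mem_roots_iff hl hp hpl r).1 hr
    refine ⟨u, ?_, ?_⟩
    · rw [Finset.mem_filter]
      exact ⟨Finset.mem_univ _, ho⟩
    · rw [hu, ZMod.val_natCast, Nat.mod_eq_of_lt h2]

end Pool.Agent.helper20.MPN
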