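import Pool.Agent.helper20.MPN.Defs

set_option autoImplicit false

/-!
# MPN-D: divisibility facts for multiply perfect numbers

PROOFS.
* `cyc_dvd`: `∑_{i < l m} x ^ i = (∑_{i < l} x ^ i) (∑_{j < m} x ^ (l j))`.
* `prod_cyc_dvd`: `σ n = ∏_{p ∣ n} σ (p ^ a_p)`, `σ (p ^ a) = ∑_{i ≤ a} p ^ i`
  (`ArithmeticFunction.IsMultiplicative.multiplicative_factorization`, `Nat.divisors_prime_pow` /
  `ArithmeticFunction.sigma_one_apply_prime_pow`); each `cyc l p` with `p ∈ Pl n l` divides its factor.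
* `card_one`: for a prime `Q` the number of `p ∈ Pl n l` with `Q ∣ cyc l p` is at most the exponent of
  `Q` in `∏ cyc l p`, which is at most that of `k n`, i.e. `k.factorization Q + n.factorization Q ≤
  k.factorization Q + maxExp n`.
* `card_bad`: sum over the primes `Q ≤ w`: `∑_Q k.factorization Q ≤ log_2 k` (`2 ^ (∑ v_Q) ≤ k`),
  `∑_{Q ≤ w} maxExp n ≤ w * maxExp n`.
* `le_prod`: `σ (p ^ a) / p ^ a = ∑_{i ≤ a} p ^ (-i) ≤ p / (p - 1)`.
-/

namespace Pool.Agent.helper20.MPN

open Finset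

theorem cyc_dvd {l a : ℕ} (h : l ∣ a) (x : ℕ) : cyc l x ∣ cyc a x := by
  obtain ⟨m, rfl⟩ := h
  unfold cyc
  induction m with
  | zero => simp
  | succ m ih =>
    rw [Nat.mul_succ, Finset.sum_range_add]
    refine dvd_add ih ?_
    refine ⟨x ^ (l * m), ?_⟩
    rw [Finset.sum_mul]
    refine Finset.sum_congr rfl fun i _ => ?_
    rw [pow_add, mul_comm]

theorem D_sigma_eq {n : ℕ} (hn : 0 < n) :
    ArithmeticFunction.sigma 1 n = ∏ p ∈ n.primeFactors, cyc (n.factorization p + 1) p := by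
  rw [ArithmeticFunction.IsMultiplicative.multiplicative_factorization _
    ArithmeticFunction.isMultiplicative_sigma hn.ne']
  rw [Finsupp.prod, Nat.support_factorization]
  refine Finset.prod_congr rfl fun p hp => ?_
  rw [ArithmeticFunction.sigma_one_apply_prime_pow (Nat.prime_of_mem_primeFactors hp)]
  rfl

theorem prod_cyc_dvd {n l : ℕ} (hn : 0 < n) :
    ∏ p ∈ Pl n l, cyc l p ∣ ArithmeticFunction.sigma 1 n := by
  rw [D_sigma_eq hn]
  refine dvd_trans (b := ∏ p ∈ Pl n l, cyc (n.factorization p + 1) p) ?_ ?_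
  · refine Finset.prod_dvd_prod_of_dvd _ _ fun p hp => ?_
    exact cyc_dvd (Finset.mem_filter.mp hp).2 p
  · exact Finset.prod_dvd_prod_of_subset _ _ _ (Finset.filter_subset _ _)

theorem card_one {n l k : ℕ} (hn : 0 < n) (hk : 0 < k) (hl : 0 < l)
    (h : ArithmeticFunction.sigma 1 n = k * n) {Q : ℕ} (hQ : Q.Prime) :
    ((Pl n l).filter fun p => Q ∣ cyc l p).card ≤ k.factorization Q + maxExp n := by
  have hdvd : Q ^ ((Pl n l).filter fun p => Q ∣ cyc l p).card ∣ k * n := by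
    rw [← h]
    refine dvd_trans ?_ (prod_cyc_dvd (l := l) hn)
    refine dvd_trans (b := ∏ p ∈ (Pl n l).filter (fun p => Q ∣ cyc l p), cyc l p) ?_
      (Finset.prod_dvd_prod_of_subset _ _ _ (Finset.filter_subset _ _))
    rw [← Finset.prod_const]
    exact Finset.prod_dvd_prod_of_dvd _ _ fun p hp => (Finset.mem_filter.mp hp).2
  have h1 : ((Pl n l).filter fun p => Q ∣ cyc l p).card ≤ (k * n).factorization Q :=
    (hQ.pow_dvd_iff_le_factorization (Nat.mul_ne_zero hk.ne' hn.ne')).mp hdvd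
  rw [Nat.factorization_mul hk.ne' hn.ne'] at h1
  refine h1.trans ?_
  simp only [Finsupp.coe_add, Pi.add_apply, add_le_add_iff_left]
  by_cases hQn : Q ∈ n.primeFactors
  · exact Finset.le_sup (f := fun p => n.factorization p) hQn
  · rw [← Nat.support_factorization, Finsupp.notMem_support_iff] at hQn
    rw [hQn]
    exact Nat.zero_le _

theorem D_sum_fact_le {k : ℕ} (hk : 0 < k) (S : Finset ℕ) :
    ∑ Q ∈ S, k.factorization Q ≤ Nat.log 2 k := by
  have h1 : ∑ Q ∈ S, k.factorization Q ≤ ∑ Q ∈ k.primeFactors, k.factorization Q := by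
    refine Finset.sum_le_sum_of_ne_zero fun Q _ hQ => ?_
    rw [← Nat.support_factorization]
    exact Finsupp.mem_support_iff.mpr hQ
  refine h1.trans ?_
  refine Nat.le_log_of_pow_le (by norm_num) ?_
  rw [← Finset.prod_pow_eq_pow_sum]
  calc ∏ Q ∈ k.primeFactors, 2 ^ k.factorization Q
      ≤ ∏ Q ∈ k.primeFactors, Q ^ k.factorization Q :=
        Finset.prod_le_prod' fun Q hQ =>
          Nat.pow_le_pow_left (Nat.prime_of_mem_primeFactors hQ).two_le _
    _ = k := by
        conv_rhs => rw [← Nat.prod_factorization_pow_eq_self hk.ne']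
        rw [Finsupp.prod, Nat.support_factorization]

open scoped Classical in
theorem card_bad {n l k : ℕ} (hn : 0 < n) (hk : 0 < k) (hl : 0 < l)
    (h : ArithmeticFunction.sigma 1 n = k * n) (w : ℕ) :
    ((Pl n l).filter fun p => ∃ Q : ℕ, Q.Prime ∧ Q ≤ w ∧ Q ∣ cyc l p).card ≤
      Nat.log 2 k + w * maxExp n := by
  set P : Finset ℕ := (Finset.Icc 1 w).filter Nat.Prime with hP
  have hsub : ((Pl n l).filter fun p => ∃ Q : ℕ, Q.Prime ∧ Q ≤ w ∧ Q ∣ cyc l p) ⊆
      P.biUnion fun Q => (Pl n l).filter fun p => Q ∣ cyc l p := by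
    intro p hp
    obtain ⟨hp1, Q, hQ, hQw, hQd⟩ := Finset.mem_filter.mp hp
    refine Finset.mem_biUnion.mpr ⟨Q, ?_, Finset.mem_filter.mpr ⟨hp1, hQd⟩⟩
    exact Finset.mem_filter.mpr ⟨Finset.mem_Icc.mpr ⟨hQ.one_lt.le, hQw⟩, hQ⟩
  calc ((Pl n l).filter fun p => ∃ Q : ℕ, Q.Prime ∧ Q ≤ w ∧ Q ∣ cyc l p).card
      ≤ (P.biUnion fun Q => (Pl n l).filter fun p => Q ∣ cyc l p).card :=
        Finset.card_le_card hsub
    _ ≤ ∑ Q ∈ P, ((Pl n l).filter fun p => Q ∣ cyc l p).card := Finset.card_biUnion_le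
    _ ≤ ∑ Q ∈ P, (k.factorization Q + maxExp n) :=
        Finset.sum_le_sum fun Q hQ => card_one hn hk hl h (Finset.mem_filter.mp hQ).2
    _ = ∑ Q ∈ P, k.factorization Q + P.card * maxExp n := by
        rw [Finset.sum_add_distrib, Finset.sum_const, smul_eq_mul]
    _ ≤ Nat.log 2 k + w * maxExp n := by
        refine add_le_add (D_sum_fact_le hk P) (Nat.mul_le_mul_right _ ?_)
        calc P.card ≤ (Finset.Icc 1 w).card := Finset.card_le_card (Finset.filter_subset _ _)
          _ = w := by simp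

theorem le_prod {n : ℕ} (hn : 0 < n) :
    (ArithmeticFunction.sigma 1 n : ℝ) / n ≤ ∏ p ∈ n.primeFactors, ((p : ℝ) / (p - 1)) := by
  have hn' : (n : ℝ) = ∏ p ∈ n.primeFactors, ((p : ℝ) ^ n.factorization p) := by
    conv_lhs => rw [← Nat.prod_factorization_pow_eq_self hn.ne']
    rw [Finsupp.prod, Nat.support_factorization]
    push_cast
    rfl
  rw [D_sigma_eq hn]
  conv_lhs => rw [hn']
  push_cast
  rw [← Finset.prod_div_distrib]
  refine Finset.prod_le_prod (fun p _ => by positivity) fun p hp => ?_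
  have hp2 := (Nat.prime_of_mem_primeFactors hp).two_le
  have hp2' : (2 : ℝ) ≤ p := by exact_mod_cast hp2
  have hpos : (0 : ℝ) < (p : ℝ) ^ n.factorization p := by positivity
  rw [div_le_div_iff₀ hpos (by linarith)]
  unfold cyc
  push_cast
  rw [geom_sum_mul, pow_succ]
  linarith

end Pool.Agent.helper20.MPN
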