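import Mathlib

set_option autoImplicit false

/-!
# MPN: the multiplier of multiply perfect numbers (MP_5f35f4_nt), definitions

Goal: for every `A` there is `K` such that `σ(n) = k n` implies
`k ≤ K * log (2 + E + log k) * ∏_{p ∈ rough A n} p / (p - 1)`, `E` the largest exponent of `n`.
-/

namespace Pool.Agent.helper20.MPN

open Finset

/-- `1 + x + ... + x ^ (l - 1)` -/
def cyc (l x : ℕ) : ℕ := ∑ i ∈ range l, x ^ i

/-- the largest exponent of `n` -/
def maxExp (n : ℕ) : ℕ := n.primeFactors.sup fun p => n.factorization p

/-- the prime factors of `n` whose exponent plus one is divisible by `l` -/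
def Pl (n l : ℕ) : Finset ℕ := n.primeFactors.filter fun p => l ∣ n.factorization p + 1

/-- the prime factors of `n` whose exponent plus one has no prime factor `≤ A` -/
noncomputable def rough (A n : ℕ) : Finset ℕ := by
  classical
  exact n.primeFactors.filter fun p => ∀ l : ℕ, l.Prime → l ≤ A → ¬ l ∣ n.factorization p + 1

/-- the sieve sum: over all subsets `S` of `P` with product at most `Q` -/
noncomputable def gG (P : Finset ℕ) (R : ℕ → Finset ℕ) (Q : ℕ) : ℝ :=
  ∑ S ∈ P.powerset.filter (fun S => ∏ p ∈ S, p ≤ Q),
    ∏ p ∈ S, (((R p).card : ℝ) / ((p : ℝ) - (R p).card))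

end Pool.Agent.helper20.MPN
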