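import Pool.Agent.helper20.MPN.G
import Pool.Agent.helper20.MPN.D

set_option autoImplicit false

/-!
# MPN-F: the bound for the multiplier
-/

namespace Pool.Agent.helper20.MPN

open Finset

theorem F_sq_le (m : ℕ) : (4 * m + 3) ^ 2 ≤ 36 * 2 ^ m := by
  induction m with
  | zero => norm_num
  | succ m ih =>
    rcases Nat.lt_or_ge m 2 with h | h
    · interval_cases m <;> norm_num
    · have : (4 * (m + 1) + 3) ^ 2 ≤ 2 * (4 * m + 3) ^ 2 := by nlinarith
      calc (4 * (m + 1) + 3) ^ 2 ≤ 2 * (4 * m + 3) ^ 2 := this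
        _ ≤ 2 * (36 * 2 ^ m) := by omega
        _ = 36 * 2 ^ (m + 1) := by ring

theorem F_pow_quarter (j : ℕ) : j ^ 2 * 2 ^ (j / 8 + j / 2) ≤ 36 * 2 ^ j := by
  have h1 := F_sq_le (j / 4)
  have h2 : j ≤ 4 * (j / 4) + 3 := by omega
  have h3 : j ^ 2 ≤ (4 * (j / 4) + 3) ^ 2 := Nat.pow_le_pow_left h2 2
  calc j ^ 2 * 2 ^ (j / 8 + j / 2) ≤ (36 * 2 ^ (j / 4)) * 2 ^ (j / 8 + j / 2) :=
        Nat.mul_le_mul_right _ (h3.trans h1)
    _ = 36 * 2 ^ (j / 4 + (j / 8 + j / 2)) := by rw [mul_assoc, ← pow_add]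
    _ ≤ 36 * 2 ^ j := Nat.mul_le_mul_left _ (Nat.pow_le_pow_right (by norm_num) (by omega))

/-- the threshold -/
def mm (n k : ℕ) : ℕ := Nat.log 2 (maxExp n + Nat.log 2 k + 2) + 1

theorem F_lt_pow (n k : ℕ) : maxExp n + Nat.log 2 k + 2 < 2 ^ mm n k :=
  Nat.lt_pow_succ_log_self (by norm_num) _

/-- the primes of `Pl n l` in a dyadic interval -/
def Dj (n l j : ℕ) : Finset ℕ := (Pl n l).filter fun p => 2 ^ j < p ∧ p ≤ 2 ^ (j + 1)

theorem F_dyadic {l : ℕ} (hl : l.Prime) : ∃ δ K : ℝ, 0 < δ ∧ 0 ≤ K ∧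
    ∀ n k : ℕ, 0 < n → 0 < k → ArithmeticFunction.sigma 1 n = k * n → ∀ j, 2 * mm n k ≤ j →
      ((Dj n l j).card : ℝ) ≤ K * (2 ^ j / (j : ℝ) ^ (1 + δ)) := by
  classical
  obtain ⟨δ, K, t, hδ, hδ1, hK, ht, h⟩ := sieve_dyadic hl
  refine ⟨δ, K + 36, hδ, by linarith, fun n k hn hk hs j hj => ?_⟩
  have hj1 : 1 ≤ j := by
    unfold mm at hj
    omega
  have hj0 : (1 : ℝ) ≤ j := by exact_mod_cast hj1
  have hjp : 0 < (j : ℝ) ^ (1 + δ) := Real.rpow_pos_of_pos (by linarith) _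
  have hj2 : (j : ℝ) ^ (1 + δ) ≤ (j : ℝ) ^ 2 := by
    rw [← Real.rpow_natCast]
    exact Real.rpow_le_rpow_of_exponent_le hj0 (by push_cast; linarith)
  have hsub : Dj n l j ⊆ Sd l t j ∪
      ((Pl n l).filter fun p => ∃ Q : ℕ, Q.Prime ∧ Q ≤ 2 ^ (j / t) ∧ Q ∣ cyc l p) := by
    intro p hp
    unfold Dj at hp
    rw [Finset.mem_filter] at hp
    rw [Finset.mem_union]
    by_cases hb : ∃ Q : ℕ, Q.Prime ∧ Q ≤ 2 ^ (j / t) ∧ Q ∣ cyc l p
    · exact Or.inr (Finset.mem_filter.2 ⟨hp.1, hb⟩)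
    · left
      rw [G_mem_Sd]
      refine ⟨hp.2, ?_, fun Q hQ hQ2 hQ3 => hb ⟨Q, hQ, hQ2, hQ3⟩⟩
      have := hp.1
      unfold Pl at this
      exact Nat.prime_of_mem_primeFactors (Finset.mem_filter.1 this).1
  have h1 : ((Dj n l j).card : ℝ) ≤ (Sd l t j).card +
      (((Pl n l).filter fun p => ∃ Q : ℕ, Q.Prime ∧ Q ≤ 2 ^ (j / t) ∧ Q ∣ cyc l p).card : ℝ) := by
    exact_mod_cast (Finset.card_le_card hsub).trans (Finset.card_union_le _ _)
  have h2 : ((Pl n l).filter fun p => ∃ Q : ℕ, Q.Prime ∧ Q ≤ 2 ^ (j / t) ∧ Q ∣ cyc l p).card ≤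
      2 ^ (j / 8 + j / 2) := by
    have h3 := card_bad hn hk hl.pos hs (2 ^ (j / t))
    have h4 := F_lt_pow n k
    have h5 : j / t ≤ j / 8 := Nat.div_le_div_left ht (by norm_num)
    have h6 : 2 ^ (j / t) ≤ 2 ^ (j / 8) := Nat.pow_le_pow_right (by norm_num) h5
    have h7 : 2 ^ mm n k ≤ 2 ^ (j / 2) := Nat.pow_le_pow_right (by norm_num) (by omega)
    have h8 : 1 ≤ 2 ^ (j / 8) := Nat.one_le_two_pow
    have h9 : Nat.log 2 k + 2 ^ (j / t) * maxExp n ≤ 2 ^ (j / 8) * (maxExp n + Nat.log 2 k + 2) := by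
      have h10 : 2 ^ (j / t) * maxExp n ≤ 2 ^ (j / 8) * maxExp n := Nat.mul_le_mul_right _ h6
      have h11 : Nat.log 2 k ≤ 2 ^ (j / 8) * Nat.log 2 k := Nat.le_mul_of_pos_left _ h8
      nlinarith
    calc _ ≤ Nat.log 2 k + 2 ^ (j / t) * maxExp n := by convert h3
      _ ≤ 2 ^ (j / 8) * (maxExp n + Nat.log 2 k + 2) := h9
      _ ≤ 2 ^ (j / 8) * 2 ^ (j / 2) := Nat.mul_le_mul_left _ (h4.le.trans h7)
      _ = 2 ^ (j / 8 + j / 2) := (pow_add _ _ _).symm
  have h3 : (2 : ℝ) ^ (j / 8 + j / 2) ≤ 36 * (2 ^ j / (j : ℝ) ^ (1 + δ)) := by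
    rw [← mul_div_assoc, le_div_iff₀ hjp]
    have h1 : ((j ^ 2 * 2 ^ (j / 8 + j / 2) : ℕ) : ℝ) ≤ ((36 * 2 ^ j : ℕ) : ℝ) := by
      exact_mod_cast F_pow_quarter j
    push_cast at h1
    have h2 : (2 : ℝ) ^ (j / 8 + j / 2) * (j : ℝ) ^ (1 + δ) ≤
        (2 : ℝ) ^ (j / 8 + j / 2) * (j : ℝ) ^ 2 :=
      mul_le_mul_of_nonneg_left hj2 (by positivity)
    linarith
  have h4 : (((Pl n l).filter fun p => ∃ Q : ℕ, Q.Prime ∧ Q ≤ 2 ^ (j / t) ∧ Q ∣ cyc l p).card : ℝ) ≤
      (2 : ℝ) ^ (j / 8 + j / 2) := by exact_mod_cast h2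
  have h5 := h j hj1
  calc ((Dj n l j).card : ℝ) ≤ K * (2 ^ j / (j : ℝ) ^ (1 + δ)) +
        36 * (2 ^ j / (j : ℝ) ^ (1 + δ)) := by linarith
    _ = _ := by ring

/-- the reciprocals of the large primes of `Pl n l` have bounded sum -/
theorem F_sum_large {l : ℕ} (hl : l.Prime) : ∃ C : ℝ, ∀ n k : ℕ, 0 < n → 0 < k →
    ArithmeticFunction.sigma 1 n = k * n →
      ∑ p ∈ (Pl n l).filter (fun p => 2 ^ (2 * mm n k) < p), (1 : ℝ) / p ≤ C := by
  classical
  obtain ⟨δ, K, hδ, hK, h⟩ := F_dyadic hl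
  have hsum : Summable fun j : ℕ => 1 / (j : ℝ) ^ (1 + δ) :=
    Real.summable_one_div_nat_rpow.2 (by linarith)
  refine ⟨K * ∑' j : ℕ, 1 / (j : ℝ) ^ (1 + δ), fun n k hn hk hs => ?_⟩
  set s := (Pl n l).filter (fun p => 2 ^ (2 * mm n k) < p) with hsdef
  set J : ℕ := n + 1 with hJ
  have hmem : ∀ p ∈ s, 2 ^ (2 * mm n k) < p ∧ p ∈ Pl n l ∧ p ≤ n := by
    intro p hp
    rw [hsdef, Finset.mem_filter] at hp
    refine ⟨hp.2, hp.1, ?_⟩
    have h1 := hp.1
    unfold Pl at h1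
    exact Nat.le_of_dvd hn (Nat.dvd_of_mem_primeFactors (Finset.mem_filter.1 h1).1)
  have hmaps : ∀ p ∈ s, Nat.log 2 (p - 1) ∈ range J := by
    intro p hp
    obtain ⟨h1, h2, h3⟩ := hmem p hp
    rw [Finset.mem_range, hJ]
    have h4 : Nat.log 2 (p - 1) ≤ p - 1 := Nat.log_le_self _ _
    omega
  rw [← Finset.sum_fiberwise_of_maps_to hmaps]
  have hj : ∀ j ∈ range J, ∑ p ∈ s.filter (fun p => Nat.log 2 (p - 1) = j), (1 : ℝ) / p ≤
      K * (1 / (j : ℝ) ^ (1 + δ)) := by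
    intro j _
    rcases Nat.lt_or_ge j (2 * mm n k) with hjm | hjm
    · have h1 : s.filter (fun p => Nat.log 2 (p - 1) = j) = ∅ := by
        rw [Finset.filter_eq_empty_iff]
        intro p hp hpj
        obtain ⟨h1, -, -⟩ := hmem p hp
        have h2 : 2 * mm n k ≤ Nat.log 2 (p - 1) :=
          Nat.le_log_of_pow_le (by norm_num) (by omega)
        omega
      rw [h1, Finset.sum_empty]
      positivity
    · have hsub : s.filter (fun p => Nat.log 2 (p - 1) = j) ⊆ Dj n l j := by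
        intro p hp
        rw [Finset.mem_filter] at hp
        obtain ⟨h1, h2, -⟩ := hmem p hp.1
        unfold Dj
        rw [Finset.mem_filter]
        have h3 : 1 ≤ 2 ^ (2 * mm n k) := Nat.one_le_two_pow
        have h4 : p - 1 ≠ 0 := by omega
        have h5 := Nat.pow_log_le_self 2 h4
        have h6 := Nat.lt_pow_succ_log_self (b := 2) (by norm_num) (p - 1)
        rw [hp.2] at h5 h6
        exact ⟨h2, by omega, by omega⟩
      have h2j : (0 : ℝ) < 2 ^ j := by positivity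
      calc ∑ p ∈ s.filter (fun p => Nat.log 2 (p - 1) = j), (1 : ℝ) / p
          ≤ ∑ p ∈ Dj n l j, (1 : ℝ) / p :=
            Finset.sum_le_sum_of_subset_of_nonneg hsub fun p _ _ => by positivity
        _ ≤ ∑ p ∈ Dj n l j, (1 : ℝ) / 2 ^ j := by
            apply Finset.sum_le_sum
            intro p hp
            unfold Dj at hp
            rw [Finset.mem_filter] at hp
            apply one_div_le_one_div_of_le h2j
            exact_mod_cast hp.2.1.le
        _ = ((Dj n l j).card : ℝ) * (1 / 2 ^ j) := by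
            rw [Finset.sum_const, nsmul_eq_mul]
        _ ≤ (K * (2 ^ j / (j : ℝ) ^ (1 + δ))) * (1 / 2 ^ j) :=
            mul_le_mul_of_nonneg_right (h n k hn hk hs j hjm) (by positivity)
        _ = K * (1 / (j : ℝ) ^ (1 + δ)) := by
            field_simp
  calc ∑ j ∈ range J, ∑ p ∈ s.filter (fun p => Nat.log 2 (p - 1) = j), (1 : ℝ) / p
      ≤ ∑ j ∈ range J, K * (1 / (j : ℝ) ^ (1 + δ)) := Finset.sum_le_sum hj
    _ = K * ∑ j ∈ range J, 1 / (j : ℝ) ^ (1 + δ) := by rw [Finset.mul_sum]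
    _ ≤ K * ∑' j : ℕ, 1 / (j : ℝ) ^ (1 + δ) := by
        apply mul_le_mul_of_nonneg_left _ hK
        exact hsum.sum_le_tsum _ fun j _ => by positivity

theorem F_tele (N : ℕ) : ∑ p ∈ Ico 2 (N + 2), (1 : ℝ) / (p * (p - 1)) = 1 - 1 / (N + 1) := by
  induction N with
  | zero => simp
  | succ N ih =>
    rw [show N + 1 + 2 = (N + 2) + 1 by ring, Finset.sum_Ico_succ_top (by omega), ih]
    have h1 : ((N : ℝ) + 1) ≠ 0 := by positivity
    have h2 : ((N : ℝ) + 2) ≠ 0 := by positivity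
    push_cast
    rw [show (N : ℝ) + 2 - 1 = N + 1 by ring, show (N : ℝ) + 1 + 1 = N + 2 by ring]
    field_simp
    ring

theorem F_tail (S : Finset ℕ) (hS : ∀ p ∈ S, 2 ≤ p) :
    ∑ p ∈ S, (1 : ℝ) / (p * (p - 1)) ≤ 1 := by
  have hsub : S ⊆ Ico 2 (S.sup id + 2) := by
    intro p hp
    rw [Finset.mem_Ico]
    have : p ≤ S.sup id := Finset.le_sup (f := id) hp
    exact ⟨hS p hp, by omega⟩
  calc ∑ p ∈ S, (1 : ℝ) / (p * (p - 1)) ≤ ∑ p ∈ Ico 2 (S.sup id + 2), (1 : ℝ) / (p * (p - 1)) := by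
        apply Finset.sum_le_sum_of_subset_of_nonneg hsub
        intro p hp _
        rw [Finset.mem_Ico] at hp
        have : (2 : ℝ) ≤ p := by exact_mod_cast hp.1
        apply div_nonneg (by norm_num)
        apply mul_nonneg <;> linarith
    _ = 1 - 1 / ((S.sup id : ℕ) + 1) := F_tele _
    _ ≤ 1 := by
        have : (0 : ℝ) ≤ 1 / ((S.sup id : ℕ) + 1) := by positivity
        linarith

theorem F_prod_le (S : Finset ℕ) (hS : ∀ p ∈ S, 2 ≤ p) :
    ∏ p ∈ S, ((p : ℝ) / (p - 1)) ≤ Real.exp (∑ p ∈ S, (1 : ℝ) / p + 1) := by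
  calc ∏ p ∈ S, ((p : ℝ) / (p - 1)) ≤
        ∏ p ∈ S, Real.exp ((1 : ℝ) / p + 1 / (p * (p - 1))) := by
        apply Finset.prod_le_prod
        · intro p hp
          have : (2 : ℝ) ≤ p := by exact_mod_cast hS p hp
          apply div_nonneg <;> linarith
        · intro p hp
          have h2 : (2 : ℝ) ≤ p := by exact_mod_cast hS p hp
          have h0 : (p : ℝ) ≠ 0 := by linarith
          have h1 : (p : ℝ) - 1 ≠ 0 := by linarith
          have h3 : (p : ℝ) / (p - 1) = ((1 : ℝ) / p + 1 / (p * (p - 1))) + 1 := by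
            field_simp
            ring
          rw [h3]
          exact Real.add_one_le_exp _
    _ = Real.exp (∑ p ∈ S, (1 : ℝ) / p + ∑ p ∈ S, (1 : ℝ) / (p * (p - 1))) := by
        rw [← Real.exp_sum, Finset.sum_add_distrib]
    _ ≤ _ := by
        apply Real.exp_le_exp.2
        have := F_tail S hS
        linarith

theorem F_union_le (s t : Finset ℕ) (f : ℕ → ℝ) (hf : ∀ x, 0 ≤ f x) :
    ∑ x ∈ s ∪ t, f x ≤ ∑ x ∈ s, f x + ∑ x ∈ t, f x := by
  classical
  have h := Finset.sum_union_inter (s₁ := s) (s₂ := t) (f := f)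
  have h2 : 0 ≤ ∑ x ∈ s ∩ t, f x := Finset.sum_nonneg fun x _ => hf x
  linarith

theorem F_biUnion_le (I : Finset ℕ) (t : ℕ → Finset ℕ) (f : ℕ → ℝ) (hf : ∀ x, 0 ≤ f x) :
    ∑ x ∈ I.biUnion t, f x ≤ ∑ i ∈ I, ∑ x ∈ t i, f x := by
  classical
  induction I using Finset.induction_on with
  | empty => simp
  | insert i I hi ih =>
    rw [Finset.biUnion_insert, Finset.sum_insert hi]
    refine (F_union_le _ _ f hf).trans ?_
    linarith

theorem F_rough_sub (A n : ℕ) : rough A n ⊆ n.primeFactors := by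
  classical
  unfold rough
  exact Finset.filter_subset _ _

/-- the prime factors which are not in `rough A n` contribute at most a logarithm -/
theorem F_nonrough (A : ℕ) : ∃ C : ℝ, ∀ n k : ℕ, 0 < n → 0 < k →
    ArithmeticFunction.sigma 1 n = k * n →
      ∑ p ∈ n.primeFactors \ rough A n, (1 : ℝ) / p ≤
        Real.log (Real.log ((2 ^ (2 * mm n k) : ℕ) : ℝ)) + C := by
  classical
  obtain ⟨C0, hC0⟩ := sum_inv_upper
  have h1 : ∀ l : ℕ, ∃ C : ℝ, l.Prime → ∀ n k : ℕ, 0 < n → 0 < k →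
      ArithmeticFunction.sigma 1 n = k * n →
      ∑ p ∈ (Pl n l).filter (fun p => 2 ^ (2 * mm n k) < p), (1 : ℝ) / p ≤ C := by
    intro l
    by_cases hl : l.Prime
    · obtain ⟨C, hC⟩ := F_sum_large hl
      exact ⟨C, fun _ => hC⟩
    · exact ⟨0, fun h => absurd h hl⟩
  choose C hC using h1
  refine ⟨C0 + ∑ l ∈ (range (A + 1)).filter Nat.Prime, C l, fun n k hn hk hs => ?_⟩
  set z : ℕ := 2 ^ (2 * mm n k) with hz
  have hz4 : 4 ≤ z := by
    have : 1 ≤ mm n k := by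
      unfold mm
      omega
    calc 4 = 2 ^ 2 := by norm_num
      _ ≤ z := Nat.pow_le_pow_right (by norm_num) (by omega)
  have hsub : n.primeFactors \ rough A n ⊆ (range (z + 1)).filter Nat.Prime ∪
      ((range (A + 1)).filter Nat.Prime).biUnion fun l => (Pl n l).filter (fun p => z < p) := by
    intro p hp
    rw [Finset.mem_sdiff] at hp
    obtain ⟨hp1, hp2⟩ := hp
    have hpp := Nat.prime_of_mem_primeFactors hp1
    rw [Finset.mem_union]
    rcases Nat.lt_or_ge z p with h2 | h2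
    · right
      have h3 : ¬ ∀ l : ℕ, l.Prime → l ≤ A → ¬ l ∣ n.factorization p + 1 := by
        intro h3
        apply hp2
        unfold rough
        exact Finset.mem_filter.2 ⟨hp1, h3⟩
      push Not at h3
      obtain ⟨l, hl, hlA, hld⟩ := h3
      rw [Finset.mem_biUnion]
      refine ⟨l, Finset.mem_filter.2 ⟨Finset.mem_range.2 (Nat.lt_succ_iff.2 hlA), hl⟩, ?_⟩
      rw [Finset.mem_filter]
      refine ⟨?_, h2⟩
      unfold Pl
      exact Finset.mem_filter.2 ⟨hp1, hld⟩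
    · left
      exact Finset.mem_filter.2 ⟨Finset.mem_range.2 (Nat.lt_succ_iff.2 h2), hpp⟩
  have hf : ∀ x : ℕ, (0 : ℝ) ≤ 1 / x := fun x => by positivity
  calc ∑ p ∈ n.primeFactors \ rough A n, (1 : ℝ) / p
      ≤ ∑ p ∈ (range (z + 1)).filter Nat.Prime ∪
        ((range (A + 1)).filter Nat.Prime).biUnion (fun l => (Pl n l).filter (fun p => z < p)),
          (1 : ℝ) / p := Finset.sum_le_sum_of_subset_of_nonneg hsub fun p _ _ => hf p
    _ ≤ ∑ p ∈ (range (z + 1)).filter Nat.Prime, (1 : ℝ) / p +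
        ∑ l ∈ (range (A + 1)).filter Nat.Prime,
          ∑ p ∈ (Pl n l).filter (fun p => z < p), (1 : ℝ) / p :=
        (F_union_le _ _ _ hf).trans (add_le_add_right (F_biUnion_le _ _ _ hf) _)
    _ ≤ (Real.log (Real.log z) + C0) + ∑ l ∈ (range (A + 1)).filter Nat.Prime, C l := by
        apply add_le_add (hC0 z (by omega))
        apply Finset.sum_le_sum
        intro l hl
        exact hC l (Finset.mem_filter.1 hl).2 n k hn hk hs
    _ = _ := by ring

theorem F_log_z {n k : ℕ} (hk : 0 < k) :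
    Real.log ((2 ^ (2 * mm n k) : ℕ) : ℝ) ≤ 8 * Real.log (2 + maxExp n + Real.log k) := by
  have hlog2 : (1 : ℝ) / 2 < Real.log 2 := by
    have := Real.log_two_gt_d9
    linarith
  have hlogk : 0 ≤ Real.log k := Real.log_natCast_nonneg k
  set E : ℝ := (maxExp n : ℝ) with hE
  have hE0 : 0 ≤ E := Nat.cast_nonneg _
  set y : ℝ := 2 + E + Real.log k with hy
  have hy2 : 2 ≤ y := by linarith
  have hly : Real.log 2 ≤ Real.log y := Real.log_le_log (by norm_num) hy2
  have hlogpow : ∀ a : ℕ, a ≠ 0 → (Nat.log 2 a : ℝ) * Real.log 2 ≤ Real.log a := by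
    intro a ha
    rw [← Real.log_pow]
    apply Real.log_le_log (by positivity)
    exact_mod_cast Nat.pow_log_le_self 2 ha
  have hL : (Nat.log 2 k : ℝ) ≤ 2 * Real.log k := by
    have h1 := hlogpow k hk.ne'
    have h2 : (0 : ℝ) ≤ (Nat.log 2 k : ℝ) := Nat.cast_nonneg _
    nlinarith
  set x : ℕ := maxExp n + Nat.log 2 k + 2 with hx
  have hxy : (x : ℝ) ≤ 2 * y := by
    rw [hx]
    push_cast
    linarith
  have hx0 : (0 : ℝ) < x := by
    rw [hx]
    positivity
  have hlx : Real.log x ≤ 2 * Real.log y := by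
    have h1 := Real.log_le_log hx0 hxy
    rw [Real.log_mul (by norm_num) (by linarith)] at h1
    linarith
  have h1 := hlogpow x (by omega)
  push_cast
  rw [Real.log_pow]
  unfold mm
  rw [← hx]
  push_cast
  nlinarith

/-- the bound for the multiplier -/
theorem main (A : ℕ) : ∃ K : ℝ, 0 < K ∧ ∀ n k : ℕ, 0 < n → 0 < k →
    ArithmeticFunction.sigma 1 n = k * n →
      (k : ℝ) ≤ K * Real.log (2 + maxExp n + Real.log k) *
        ∏ p ∈ rough A n, ((p : ℝ) / (p - 1)) := by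
  classical
  obtain ⟨C, hC⟩ := F_nonrough A
  refine ⟨8 * Real.exp (C + 1), by positivity, fun n k hn hk hs => ?_⟩
  have h1 := le_prod hn
  have h2 : (ArithmeticFunction.sigma 1 n : ℝ) / n = k := by
    have hn0 : (n : ℝ) ≠ 0 := by exact_mod_cast hn.ne'
    rw [hs]
    push_cast
    field_simp
  rw [h2, ← Finset.prod_sdiff (F_rough_sub A n)] at h1
  have hR : 0 ≤ ∏ p ∈ rough A n, ((p : ℝ) / (p - 1)) := by
    apply Finset.prod_nonneg
    intro p hp
    have h3 := (Nat.prime_of_mem_primeFactors (F_rough_sub A n hp)).two_le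
    have h4 : (2 : ℝ) ≤ p := by exact_mod_cast h3
    apply div_nonneg <;> linarith
  refine h1.trans (mul_le_mul_of_nonneg_right ?_ hR)
  have h3 := F_prod_le (n.primeFactors \ rough A n) fun p hp =>
    (Nat.prime_of_mem_primeFactors (Finset.mem_sdiff.1 hp).1).two_le
  refine h3.trans ?_
  have h4 := hC n k hn hk hs
  have hlz : 0 < Real.log ((2 ^ (2 * mm n k) : ℕ) : ℝ) := by
    apply Real.log_pos
    have : 1 ≤ mm n k := by
      unfold mm
      omega
    have h5 : 1 < 2 ^ (2 * mm n k) := Nat.one_lt_two_pow (by omega)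
    exact_mod_cast h5
  calc Real.exp (∑ p ∈ n.primeFactors \ rough A n, (1 : ℝ) / p + 1)
      ≤ Real.exp (Real.log (Real.log ((2 ^ (2 * mm n k) : ℕ) : ℝ)) + (C + 1)) :=
        Real.exp_le_exp.2 (by linarith)
    _ = Real.log ((2 ^ (2 * mm n k) : ℕ) : ℝ) * Real.exp (C + 1) := by
        rw [Real.exp_add, Real.exp_log hlz]
    _ ≤ (8 * Real.log (2 + maxExp n + Real.log k)) * Real.exp (C + 1) :=
        mul_le_mul_of_nonneg_right (F_log_z hk) (Real.exp_pos _).le
    _ = _ := by ring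

/-- elementary consequence of the bound: the term `log k` only matters for bounded `k` -/
theorem F_solve {K B y k : ℝ} (hK : 0 < K) (hB : 1 ≤ B) (hy : 0 ≤ y) (hk : 1 ≤ k)
    (h : k ≤ K * Real.log (2 + y + Real.log k) * B) :
    k ≤ 2 * (K * B) * Real.log (2 + y) + 4 * (K * B) ^ 2 := by
  have hKB : 0 < K * B := by positivity
  have hlogk : 0 ≤ Real.log k := Real.log_nonneg hk
  have h1 : Real.log (2 + y + Real.log k) ≤ Real.log (2 + y) + Real.log k := by
    have h2 : 2 + y + Real.log k ≤ (2 + y) * k := by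
      have h3 : Real.log k ≤ k - 1 := Real.log_le_sub_one_of_pos (by linarith)
      nlinarith
    have h3 := Real.log_le_log (by linarith) h2
    rwa [Real.log_mul (by linarith) (by linarith)] at h3
  have h2 : Real.log k ≤ 2 * Real.sqrt k := by
    have h3 : Real.log k = 2 * Real.log (Real.sqrt k) := by
      rw [Real.log_sqrt (by linarith)]
      ring
    rw [h3]
    have h4 : Real.log (Real.sqrt k) ≤ Real.sqrt k - 1 :=
      Real.log_le_sub_one_of_pos (Real.sqrt_pos.2 (by linarith))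
    linarith
  have h3 : K * B * (2 * Real.sqrt k) ≤ k / 2 + 2 * (K * B) ^ 2 := by
    have h4 : Real.sqrt k ^ 2 = k := Real.sq_sqrt (by linarith)
    nlinarith [sq_nonneg (Real.sqrt k - 2 * (K * B))]
  have h4 : K * Real.log (2 + y + Real.log k) * B ≤
      K * B * (Real.log (2 + y) + 2 * Real.sqrt k) := by
    calc K * Real.log (2 + y + Real.log k) * B = K * B * Real.log (2 + y + Real.log k) := by ring
      _ ≤ _ := mul_le_mul_of_nonneg_left (by linarith) hKB.le
  nlinarith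

theorem F_rough_empty {A n : ℕ} (h : ∀ p, n.factorization p ≤ A) : rough (A + 1) n = ∅ := by
  classical
  unfold rough
  rw [Finset.filter_eq_empty_iff]
  intro p hp h1
  have hp1 : 1 ≤ n.factorization p :=
    (Nat.prime_of_mem_primeFactors hp).factorization_pos_of_dvd
      (Nat.pos_of_ne_zero (Nat.mem_primeFactors.1 hp).2.2).ne' (Nat.dvd_of_mem_primeFactors hp)
  obtain ⟨l, hl, hld⟩ := Nat.exists_prime_and_dvd (n := n.factorization p + 1) (by omega)
  have h2 := Nat.le_of_dvd (by omega) hld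
  have h3 := h p
  exact h1 l hl (by omega) hld

/-- bounded exponents imply a bounded multiplier -/
theorem bounded_exp (A : ℕ) : ∃ B : ℕ, ∀ n k : ℕ, 0 < n →
    ArithmeticFunction.sigma 1 n = k * n → (∀ p, n.factorization p ≤ A) → k ≤ B := by
  obtain ⟨K, hK, h⟩ := main (A + 1)
  refine ⟨⌈2 * (K * 1) * Real.log (2 + A) + 4 * (K * 1) ^ 2⌉₊, fun n k hn hs hA => ?_⟩
  have hlogA : 0 ≤ Real.log (2 + (A : ℝ)) := Real.log_nonneg (by
    have : (0 : ℝ) ≤ A := Nat.cast_nonneg _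
    linarith)
  rcases Nat.eq_zero_or_pos k with hk | hk
  · rw [hk]
    exact Nat.zero_le _
  have h1 := h n k hn hk hs
  rw [F_rough_empty hA, Finset.prod_empty] at h1
  have hk1 : (1 : ℝ) ≤ k := by exact_mod_cast hk
  have h2 := F_solve hK le_rfl (Nat.cast_nonneg (maxExp n)) hk1 h1
  have h3 : (maxExp n : ℝ) ≤ A := by
    have : maxExp n ≤ A := by
      unfold maxExp
      exact Finset.sup_le fun p _ => hA p
    exact_mod_cast this
  have h4 : Real.log (2 + maxExp n) ≤ Real.log (2 + A) := by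
    apply Real.log_le_log _ (by linarith)
    have : (0 : ℝ) ≤ maxExp n := Nat.cast_nonneg _
    linarith
  have h5 : (k : ℝ) ≤ 2 * (K * 1) * Real.log (2 + A) + 4 * (K * 1) ^ 2 := by
    refine h2.trans ?_
    have : 2 * (K * 1) * Real.log (2 + maxExp n) ≤ 2 * (K * 1) * Real.log (2 + A) :=
      mul_le_mul_of_nonneg_left h4 (by positivity)
    linarith
  exact_mod_cast h5.trans (Nat.le_ceil _)

open Filter in
/-- Q1 on the multiply perfect numbers with small exponents and bounded rough part -/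
theorem little_o (A : ℕ) (B : ℝ) (T : Set ℕ)
    (hT : ∀ n ∈ T, 0 < n ∧ (∃ k, ArithmeticFunction.sigma 1 n = k * n) ∧
      ∏ p ∈ rough A n, ((p : ℝ) / (p - 1)) ≤ B)
    (hE : (fun n : ℕ => Real.log (2 + maxExp n)) =o[atTop ⊓ 𝓟 T]
      fun n : ℕ => Real.log (Real.log n)) :
    (fun n : ℕ => (ArithmeticFunction.sigma 1 n : ℝ) / n) =o[atTop ⊓ 𝓟 T]
      fun n : ℕ => Real.log (Real.log n) := by
  obtain ⟨K, hK, h⟩ := main A
  set B' : ℝ := max B 1 with hB'
  have hB1 : 1 ≤ B' := le_max_right _ _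
  -- the pointwise bound
  have hpt : ∀ n ∈ T, ‖(ArithmeticFunction.sigma 1 n : ℝ) / n‖ ≤
      ‖2 * (K * B') * Real.log (2 + maxExp n) + 4 * (K * B') ^ 2‖ := by
    intro n hn
    obtain ⟨hn0, ⟨k, hk⟩, hR⟩ := hT n hn
    have hn0' : (n : ℝ) ≠ 0 := by exact_mod_cast hn0.ne'
    have e : (ArithmeticFunction.sigma 1 n : ℝ) / n = k := by
      rw [hk]
      push_cast
      field_simp
    rw [e]
    have hk0 : 0 < k := by
      rcases Nat.eq_zero_or_pos k with hk0 | hk0
      · rw [hk0, zero_mul, ArithmeticFunction.sigma_eq_zero] at hk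
        omega
      · exact hk0
    have h1 := h n k hn0 hk0 hk
    have hk1 : (1 : ℝ) ≤ k := by exact_mod_cast hk0
    have hl0 : 0 ≤ Real.log (2 + maxExp n + Real.log k) := by
      apply Real.log_nonneg
      have h2 : (0 : ℝ) ≤ maxExp n := Nat.cast_nonneg _
      have h3 : 0 ≤ Real.log k := Real.log_nonneg hk1
      linarith
    have h2 : (k : ℝ) ≤ K * Real.log (2 + maxExp n + Real.log k) * B' :=
      h1.trans (mul_le_mul_of_nonneg_left (hR.trans (le_max_left _ _)) (by positivity))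
    have h3 := F_solve hK hB1 (Nat.cast_nonneg (maxExp n)) hk1 h2
    rw [Real.norm_of_nonneg (by linarith), Real.norm_of_nonneg (by linarith)]
    exact h3
  have h1 : (fun n : ℕ => 2 * (K * B') * Real.log (2 + maxExp n) + 4 * (K * B') ^ 2)
      =o[atTop ⊓ 𝓟 T] fun n : ℕ => Real.log (Real.log n) := by
    apply Asymptotics.IsLittleO.add
    · exact hE.const_mul_left _
    · apply Asymptotics.IsLittleO.mono _ inf_le_left
      apply Asymptotics.isLittleO_const_left.2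
      right
      apply Filter.Tendsto.comp tendsto_norm_atTop_atTop
      exact Real.tendsto_log_atTop.comp (Real.tendsto_log_atTop.comp tendsto_natCast_atTop_atTop)
  refine Asymptotics.IsBigO.trans_isLittleO ?_ h1
  apply Asymptotics.IsBigO.of_bound 1
  rw [Filter.eventually_inf_principal]
  filter_upwards with n hn
  rw [one_mul]
  exact hpt n hn

end Pool.Agent.helper20.MPN
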