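import Pool.Agent.helper20.MPN.Defs
import Pool.Agent.helper91.Mertens

set_option autoImplicit false

/-!
# MPN-L: `∑_{p ≤ z} 1 / p = log log z + O(1)`

PROOFS. Abel summation (`sum_mul_eq_sub_integral_mul`) or dyadic blocks from Mertens' first theorem
`|∑_{p ≤ N} log p / p - log N| ≤ C` (`Pool/Agent/helper91/Mertens.lean`: `upper`, `lower`, `abs_le`).
With `L(t) = ∑_{p ≤ t} log p / p`: `∑_{p ≤ z} 1/p = L(z) / log z + ∫_2^z L(t) / (t log^2 t) dt`, and
`∫_2^z dt / (t log t) = log log z - log log 2`, `∫_2^z dt / (t log^2 t) ≤ 1 / log 2`.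
Elementary alternative: for `a_n = log n / n [n prime]`, `1 / log p - 1 / log z =
∑_{m = p}^{z - 1} (1 / log m - 1 / log (m + 1))` and compare with `log log (m+1) - log log m`.
-/

namespace Pool.Agent.helper20.MPN

open Finset

open Pool.Agent.helper91.Mertens in
theorem L_M_eq (N : ℕ) : M N = ∑ p ∈ (range (N + 1)).filter Nat.Prime, Real.log p / p := by
  unfold M
  rw [Nat.primesLE_eq_filter_range]

theorem L_log_pos {m : ℕ} (hm : 2 ≤ m) : 0 < Real.log m :=
  Real.log_pos (by exact_mod_cast hm)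

open Pool.Agent.helper91.Mertens in
theorem L_abel {z : ℕ} (hz : 2 ≤ z) :
    ∑ p ∈ (range (z + 1)).filter Nat.Prime, (1 : ℝ) / p =
      M z / Real.log z + ∑ m ∈ Ico 2 z, M m * (1 / Real.log m - 1 / Real.log (m + 1 : ℕ)) := by
  induction z, hz using Nat.le_induction with
  | base =>
    have h : (range (2 + 1)).filter Nat.Prime = {2} := by decide
    rw [L_M_eq, h]
    have h2 : Real.log (2 : ℝ) ≠ 0 := (L_log_pos (le_refl 2)).ne'
    simp
    field_simp
  | succ z hz ih =>
    rw [Finset.sum_Ico_succ_top hz]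
    have hz0 : Real.log z ≠ 0 := (L_log_pos hz).ne'
    have hz1 : Real.log (z + 1 : ℕ) ≠ 0 := (L_log_pos (by omega)).ne'
    have hM : M (z + 1) = M z + (if Nat.Prime (z + 1) then
        Real.log (z + 1 : ℕ) / (z + 1 : ℕ) else 0) := by
      rw [L_M_eq, L_M_eq, Finset.sum_filter, Finset.sum_range_succ, ← Finset.sum_filter]
    have hS : ∑ p ∈ (range (z + 1 + 1)).filter Nat.Prime, (1 : ℝ) / p =
        ∑ p ∈ (range (z + 1)).filter Nat.Prime, (1 : ℝ) / p +
          (if Nat.Prime (z + 1) then (1 : ℝ) / (z + 1 : ℕ) else 0) := by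
      rw [Finset.sum_filter, Finset.sum_range_succ, ← Finset.sum_filter]
    rw [hS, hM, ih]
    split_ifs with hp
    · field_simp
      ring
    · field_simp
      ring

theorem L_telescope (F : ℕ → ℝ) {z : ℕ} (hz : 2 ≤ z) :
    ∑ m ∈ Ico 2 z, (F (m + 1) - F m) = F z - F 2 := by
  induction z, hz using Nat.le_induction with
  | base => simp
  | succ z hz ih =>
    rw [Finset.sum_Ico_succ_top hz, ih]
    ring

theorem L_step_nonneg {m : ℕ} (hm : 2 ≤ m) :
    0 ≤ 1 / Real.log m - 1 / Real.log (m + 1 : ℕ) := by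
  have h0 := L_log_pos hm
  have h1 : Real.log m ≤ Real.log (m + 1 : ℕ) :=
    Real.log_le_log (by exact_mod_cast (by omega : 0 < m)) (by exact_mod_cast Nat.le_succ m)
  rw [sub_nonneg]
  exact one_div_le_one_div_of_le h0 h1

theorem L_step_upper {m : ℕ} (hm : 2 ≤ m) :
    Real.log m * (1 / Real.log m - 1 / Real.log (m + 1 : ℕ)) ≤
      Real.log (Real.log (m + 1 : ℕ)) - Real.log (Real.log m) := by
  have h0 := L_log_pos hm
  have h1 : 0 < Real.log (m + 1 : ℕ) := L_log_pos (by omega)
  rw [← Real.log_div h1.ne' h0.ne']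
  have h2 := Real.one_sub_inv_le_log_of_pos (x := Real.log (m + 1 : ℕ) / Real.log m)
    (div_pos h1 h0)
  refine le_trans (le_of_eq ?_) h2
  rw [inv_div]
  field_simp

theorem L_step_lower {m : ℕ} (hm : 2 ≤ m) :
    Real.log (Real.log (m + 1 : ℕ)) - Real.log (Real.log m) -
        (1 / Real.log m - 1 / Real.log (m + 1 : ℕ)) ≤
      Real.log m * (1 / Real.log m - 1 / Real.log (m + 1 : ℕ)) := by
  have h0 := L_log_pos hm
  have h1 : 0 < Real.log (m + 1 : ℕ) := L_log_pos (by omega)
  have hm0 : (0 : ℝ) < m := by exact_mod_cast (by omega : 0 < m)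
  have hm2 : (2 : ℝ) ≤ m := by exact_mod_cast hm
  rw [← Real.log_div h1.ne' h0.ne']
  have h2 := Real.log_le_sub_one_of_pos (x := Real.log (m + 1 : ℕ) / Real.log m) (div_pos h1 h0)
  -- `log (m+1) - log m ≤ 1`
  have h3 : Real.log (m + 1 : ℕ) - Real.log m ≤ 1 := by
    rw [← Real.log_div (by positivity) hm0.ne']
    have h4 := Real.log_le_sub_one_of_pos (x := ((m + 1 : ℕ) : ℝ) / m) (by positivity)
    have h5 : ((m + 1 : ℕ) : ℝ) / m ≤ 2 := by
      rw [div_le_iff₀ hm0]
      push_cast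
      linarith
    linarith
  have h6 := L_step_nonneg hm
  have h7 : Real.log (m + 1 : ℕ) / Real.log m - 1 =
      Real.log (m + 1 : ℕ) * (1 / Real.log m - 1 / Real.log (m + 1 : ℕ)) := by
    field_simp
  have h8 : (Real.log (m + 1 : ℕ) - Real.log m) * (1 / Real.log m - 1 / Real.log (m + 1 : ℕ)) ≤
      1 / Real.log m - 1 / Real.log (m + 1 : ℕ) := by
    calc _ ≤ 1 * (1 / Real.log m - 1 / Real.log (m + 1 : ℕ)) :=
          mul_le_mul_of_nonneg_right h3 h6
      _ = _ := one_mul _
  nlinarith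

theorem sum_inv_upper : ∃ C : ℝ, ∀ z : ℕ, 3 ≤ z →
    ∑ p ∈ (range (z + 1)).filter Nat.Prime, (1 : ℝ) / p ≤ Real.log (Real.log z) + C := by
  set C1 : ℝ := Real.log 4 with hC1
  have hC1p : 0 ≤ C1 := Real.log_nonneg (by norm_num)
  refine ⟨1 + C1 / Real.log (2 : ℕ) - Real.log (Real.log (2 : ℕ)), fun z hz => ?_⟩
  have hz2 : 2 ≤ z := by omega
  rw [L_abel hz2]
  have hlz := L_log_pos hz2
  set F : ℕ → ℝ := fun m => Real.log (Real.log m) - C1 / Real.log m with hF
  have h1 : ∑ m ∈ Ico 2 z, Pool.Agent.helper91.Mertens.M m *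
      (1 / Real.log m - 1 / Real.log (m + 1 : ℕ)) ≤ ∑ m ∈ Ico 2 z, (F (m + 1) - F m) := by
    refine Finset.sum_le_sum fun m hm => ?_
    have hm2 : 2 ≤ m := (Finset.mem_Ico.mp hm).1
    have h2 := Pool.Agent.helper91.Mertens.upper (N := m) (by omega)
    have h3 := L_step_nonneg hm2
    have h4 := L_step_upper hm2
    calc Pool.Agent.helper91.Mertens.M m * (1 / Real.log m - 1 / Real.log (m + 1 : ℕ))
        ≤ (Real.log m + C1) * (1 / Real.log m - 1 / Real.log (m + 1 : ℕ)) :=
          mul_le_mul_of_nonneg_right h2 h3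
      _ ≤ F (m + 1) - F m := by
          simp only [hF]
          rw [add_mul]
          have : C1 * (1 / Real.log m - 1 / Real.log (m + 1 : ℕ)) =
              C1 / Real.log m - C1 / Real.log (m + 1 : ℕ) := by ring
          rw [this]
          linarith
  rw [L_telescope F hz2] at h1
  have h2 : Pool.Agent.helper91.Mertens.M z / Real.log z ≤ 1 + C1 / Real.log z := by
    have h3 := Pool.Agent.helper91.Mertens.upper (N := z) (by omega)
    calc Pool.Agent.helper91.Mertens.M z / Real.log z ≤ (Real.log z + C1) / Real.log z :=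
          div_le_div_of_nonneg_right h3 hlz.le
      _ = 1 + C1 / Real.log z := by field_simp
  simp only [hF] at h1
  linarith

theorem sum_inv_lower : ∃ C : ℝ, ∀ z : ℕ, 3 ≤ z →
    Real.log (Real.log z) - C ≤ ∑ p ∈ (range (z + 1)).filter Nat.Prime, (1 : ℝ) / p := by
  set C2 : ℝ := 1 + Pool.Agent.helper91.Mertens.Cpp with hC2
  have hC2p : 0 ≤ C2 := by
    have := Pool.Agent.helper91.Mertens.Cpp_nonneg
    linarith
  refine ⟨(C2 + 1) / Real.log (2 : ℕ) + Real.log (Real.log (2 : ℕ)), fun z hz => ?_⟩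
  have hz2 : 2 ≤ z := by omega
  rw [L_abel hz2]
  have hlz := L_log_pos hz2
  set F : ℕ → ℝ := fun m => Real.log (Real.log m) + (C2 + 1) / Real.log m with hF
  have h1 : ∑ m ∈ Ico 2 z, (F (m + 1) - F m) ≤ ∑ m ∈ Ico 2 z, Pool.Agent.helper91.Mertens.M m *
      (1 / Real.log m - 1 / Real.log (m + 1 : ℕ)) := by
    refine Finset.sum_le_sum fun m hm => ?_
    have hm2 : 2 ≤ m := (Finset.mem_Ico.mp hm).1
    have h2 := Pool.Agent.helper91.Mertens.lower (N := m) (by omega)
    have h3 := L_step_nonneg hm2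
    have h4 := L_step_lower hm2
    calc F (m + 1) - F m ≤ (Real.log m - C2) * (1 / Real.log m - 1 / Real.log (m + 1 : ℕ)) := by
          simp only [hF]
          rw [sub_mul]
          have h5 : C2 * (1 / Real.log m - 1 / Real.log (m + 1 : ℕ)) =
              C2 / Real.log m - C2 / Real.log (m + 1 : ℕ) := by ring
          have h6 : (C2 + 1) / Real.log m - (C2 + 1) / Real.log (m + 1 : ℕ) =
              C2 / Real.log m - C2 / Real.log (m + 1 : ℕ) +
                (1 / Real.log m - 1 / Real.log (m + 1 : ℕ)) := by ring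
          rw [h5]
          linarith
      _ ≤ _ := mul_le_mul_of_nonneg_right h2 h3
  rw [L_telescope F hz2] at h1
  have h2 : 1 - C2 / Real.log z ≤ Pool.Agent.helper91.Mertens.M z / Real.log z := by
    have h3 := Pool.Agent.helper91.Mertens.lower (N := z) (by omega)
    calc 1 - C2 / Real.log z = (Real.log z - C2) / Real.log z := by field_simp
      _ ≤ Pool.Agent.helper91.Mertens.M z / Real.log z := div_le_div_of_nonneg_right h3 hlz.le
  simp only [hF] at h1
  have h7 : (0 : ℝ) ≤ 1 / Real.log z := by positivity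
  have h8 : (C2 + 1) / Real.log z = C2 / Real.log z + 1 / Real.log z := by ring
  linarith

end Pool.Agent.helper20.MPN
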