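import Pool.Agent.helper20.MPN.Defs
import Pool.Agent.helper91.Mertens

set_option autoImplicit false

/-!
# MPN-M: a Mertens type lower bound for the primes `= 1` modulo `l`

PROOF (simpler than the first plan). Let `P(s) = ∑ p ^ (-1 - s)` and `D(s) = ∑ log p * p ^ (-1 - s)`
over the primes `p = 1 mod l`.
(1) Mathlib `ArithmeticFunction.vonMangoldt.LSeries_residueClass_lower_bound` and
`summable_residueClass_non_primes_div`: `D(s) ≥ (1 / φ) / s - C` for `0 < s ≤ 1`.
(2) `P(s / 2) - P(s) ≥ (s / 2) D(s)`, hence `P(2 ^ (- J)) ≥ J / (2 φ) - C`.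
(3) If `s log z ≥ 1` then the primes `> z` contribute at most `1 + C'` to `P(s)`: blocks
`z ^ k < p ≤ z ^ (k + 1)` and Mertens' first theorem (`Pool/Agent/helper91/Mertens.lean`).
(4) Take `J = ⌊log log z / log 2⌋`.
-/

namespace Pool.Agent.helper20.MPN

open Finset

/-- the indicator of the primes `= 1` modulo `l` -/
def mPr (l p : ℕ) : Prop := p.Prime ∧ p % l = 1

instance mPr_dec (l p : ℕ) : Decidable (mPr l p) := by unfold mPr; infer_instance

/-- `p ^ (-1-s)` on the primes `= 1` modulo `l` -/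
noncomputable def mP (l : ℕ) (s : ℝ) (n : ℕ) : ℝ := if mPr l n then ((n : ℝ) ^ (1 + s))⁻¹ else 0

/-- `log p * p ^ (-1-s)` on the primes `= 1` modulo `l` -/
noncomputable def mD (l : ℕ) (s : ℝ) (n : ℕ) : ℝ :=
  if mPr l n then Real.log n * ((n : ℝ) ^ (1 + s))⁻¹ else 0

lemma mP_nonneg (l : ℕ) (s : ℝ) (n : ℕ) : 0 ≤ mP l s n := by
  unfold mP
  split_ifs
  · positivity
  · exact le_rfl

lemma mD_nonneg (l : ℕ) (s : ℝ) (n : ℕ) : 0 ≤ mD l s n := by
  unfold mD
  split_ifs
  · have := Real.log_natCast_nonneg n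
    positivity
  · exact le_rfl

lemma mP_summable (l : ℕ) {s : ℝ} (hs : 0 < s) : Summable (mP l s) := by
  have h1 : Summable (fun n : ℕ => ((n : ℝ) ^ (1 + s))⁻¹) :=
    Real.summable_nat_rpow_inv.mpr (by linarith)
  refine Summable.of_nonneg_of_le (mP_nonneg l s) (fun n => ?_) h1
  unfold mP
  split_ifs
  · exact le_rfl
  · positivity

lemma mD_summable (l : ℕ) {s : ℝ} (hs : 0 < s) : Summable (mD l s) := by
  have h1 : Summable (fun n : ℕ => (2 / s) * ((n : ℝ) ^ (1 + s / 2))⁻¹) :=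
    (Real.summable_nat_rpow_inv.mpr (by linarith)).mul_left _
  refine Summable.of_nonneg_of_le (mD_nonneg l s) (fun n => ?_) h1
  unfold mD
  split_ifs with h
  · have hn : (0 : ℝ) < n := by exact_mod_cast h.1.pos
    have h2 : Real.log n ≤ (n : ℝ) ^ (s / 2) / (s / 2) :=
      Real.log_le_rpow_div hn.le (by linarith)
    have h3 : (n : ℝ) ^ (1 + s) = (n : ℝ) ^ (s / 2) * (n : ℝ) ^ (1 + s / 2) := by
      rw [← Real.rpow_add hn]; ring_nf
    calc Real.log n * ((n : ℝ) ^ (1 + s))⁻¹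
        ≤ ((n : ℝ) ^ (s / 2) / (s / 2)) * ((n : ℝ) ^ (1 + s))⁻¹ := by gcongr
      _ = (2 / s) * ((n : ℝ) ^ (1 + s / 2))⁻¹ := by
        rw [h3]
        have h4 : (n : ℝ) ^ (s / 2) ≠ 0 := by positivity
        have h5 : (n : ℝ) ^ (1 + s / 2) ≠ 0 := by positivity
        field_simp
  · positivity

/-- (1) -/
lemma mD_lower (l : ℕ) (hl : 2 ≤ l) : ∃ C : ℝ, 0 ≤ C ∧ ∀ s : ℝ, 0 < s → s ≤ 1 →
    (l.totient : ℝ)⁻¹ / s - C ≤ ∑' n, mD l s n := by
  have : NeZero l := ⟨by omega⟩
  obtain ⟨C0, hC0⟩ := ArithmeticFunction.vonMangoldt.LSeries_residueClass_lower_bound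
    (q := l) (a := 1) isUnit_one
  have hsum := ArithmeticFunction.vonMangoldt.summable_residueClass_non_primes_div (1 : ZMod l)
  set C1 : ℝ := ∑' n : ℕ, (if n.Prime then 0 else
    ArithmeticFunction.vonMangoldt.residueClass (1 : ZMod l) n) / n with hC1
  have hC1nn : 0 ≤ C1 := by
    refine tsum_nonneg (fun n => ?_)
    have := ArithmeticFunction.vonMangoldt.residueClass_nonneg (1 : ZMod l) n
    split_ifs <;> positivity
  refine ⟨|C0| + C1, by positivity, fun s hs hs1 => ?_⟩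
  have h1 := hC0 (x := 1 + s) ⟨by linarith, by linarith⟩
  rw [show 1 + s - 1 = s by ring] at h1
  have hpt : ∀ n : ℕ, ArithmeticFunction.vonMangoldt.residueClass (1 : ZMod l) n /
      (n : ℝ) ^ (1 + s) ≤ mD l s n + (if n.Prime then 0 else
        ArithmeticFunction.vonMangoldt.residueClass (1 : ZMod l) n) / n := by
    intro n
    have hnn := ArithmeticFunction.vonMangoldt.residueClass_nonneg (1 : ZMod l) n
    by_cases hp : n.Prime
    · rw [if_pos hp, zero_div, add_zero]
      unfold mD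
      by_cases h2 : n % l = 1
      · rw [if_pos ⟨hp, h2⟩, div_eq_mul_inv]
        have h3 := ArithmeticFunction.vonMangoldt.residueClass_le (1 : ZMod l) n
        rw [ArithmeticFunction.vonMangoldt_apply_prime hp] at h3
        gcongr
      · rw [if_neg (fun h => h2 h.2)]
        have h4 : ArithmeticFunction.vonMangoldt.residueClass (1 : ZMod l) n = 0 := by
          unfold ArithmeticFunction.vonMangoldt.residueClass
          refine Set.indicator_of_notMem ?_ _
          intro h5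
          apply h2
          have h6 : (n : ZMod l) = ((1 : ℕ) : ZMod l) := by
            rw [Nat.cast_one]; exact h5
          rw [ZMod.natCast_eq_natCast_iff'] at h6
          rw [h6, Nat.mod_eq_of_lt (by omega)]
        rw [h4, zero_div]
    · rw [if_neg hp]
      have h7 : 0 ≤ mD l s n := mD_nonneg l s n
      have h8 : ArithmeticFunction.vonMangoldt.residueClass (1 : ZMod l) n /
          (n : ℝ) ^ (1 + s) ≤ ArithmeticFunction.vonMangoldt.residueClass (1 : ZMod l) n / n := by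
        rcases Nat.eq_zero_or_pos n with h0 | h0
        · subst h0
          simp
        · have hn1 : (1 : ℝ) ≤ n := by exact_mod_cast h0
          refine div_le_div_of_nonneg_left hnn (by positivity) ?_
          calc (n : ℝ) = (n : ℝ) ^ (1 : ℝ) := (Real.rpow_one _).symm
            _ ≤ (n : ℝ) ^ (1 + s) := Real.rpow_le_rpow_of_exponent_le hn1 (by linarith)
      linarith
  have hsm := mD_summable l hs
  have hadd := hsm.add hsum
  have h2 : ∑' n : ℕ, ArithmeticFunction.vonMangoldt.residueClass (1 : ZMod l) n /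
      (n : ℝ) ^ (1 + s) ≤ ∑' n, mD l s n + C1 := by
    rw [hC1, ← hsm.tsum_add hsum]
    refine Summable.tsum_le_tsum hpt ?_ hadd
    refine Summable.of_nonneg_of_le (fun n => ?_) hpt hadd
    have := ArithmeticFunction.vonMangoldt.residueClass_nonneg (1 : ZMod l) n
    positivity
  have h3 := le_abs_self C0
  linarith

/-- (2) -/
lemma mP_step (l : ℕ) {s : ℝ} (hs : 0 < s) :
    ∑' n, mP l s n + (s / 2) * ∑' n, mD l s n ≤ ∑' n, mP l (s / 2) n := by
  rw [← tsum_mul_left, ← (mP_summable l hs).tsum_add ((mD_summable l hs).mul_left _)]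
  refine Summable.tsum_le_tsum (fun n => ?_)
    ((mP_summable l hs).add ((mD_summable l hs).mul_left _)) (mP_summable l (by linarith))
  unfold mP mD
  split_ifs with h
  · have hn : (0 : ℝ) < n := by exact_mod_cast h.1.pos
    have h3 : (n : ℝ) ^ (1 + s) = (n : ℝ) ^ (s / 2) * (n : ℝ) ^ (1 + s / 2) := by
      rw [← Real.rpow_add hn]; ring_nf
    have h4 : (0 : ℝ) < (n : ℝ) ^ (s / 2) := by positivity
    have h5 : (0 : ℝ) < (n : ℝ) ^ (1 + s / 2) := by positivity
    have h6 : 1 + (s / 2) * Real.log n ≤ (n : ℝ) ^ (s / 2) := by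
      rw [Real.rpow_def_of_pos hn]
      have := Real.add_one_le_exp (Real.log n * (s / 2))
      linarith
    rw [h3, mul_inv]
    have h7 : ((n : ℝ) ^ (s / 2))⁻¹ * (1 + (s / 2) * Real.log n) ≤ 1 := by
      rw [inv_mul_le_iff₀ h4]
      linarith
    have h8 : 0 < ((n : ℝ) ^ (1 + s / 2))⁻¹ := by positivity
    nlinarith
  · simp

lemma mP_lower (l : ℕ) (hl : 2 ≤ l) : ∃ C : ℝ, 0 ≤ C ∧ ∀ J : ℕ,
    (J : ℝ) / (2 * l.totient) - C ≤ ∑' n, mP l ((1 / 2 : ℝ) ^ J) n := by
  obtain ⟨C, hC, hD⟩ := mD_lower l hl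
  refine ⟨C, hC, ?_⟩
  have key : ∀ J : ℕ, (J : ℝ) / (2 * l.totient) - C * (1 - (1 / 2 : ℝ) ^ J) ≤
      ∑' n, mP l ((1 / 2 : ℝ) ^ J) n := by
    intro J
    induction J with
    | zero =>
      have : 0 ≤ ∑' n, mP l ((1 / 2 : ℝ) ^ 0) n := tsum_nonneg (fun n => mP_nonneg _ _ n)
      simpa using this
    | succ J ih =>
      have hpos : (0 : ℝ) < (1 / 2 : ℝ) ^ J := by positivity
      have hle : (1 / 2 : ℝ) ^ J ≤ 1 := pow_le_one₀ (by norm_num) (by norm_num)
      have h1 := mP_step l hpos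
      have h2 := hD _ hpos hle
      have h3 : (1 / 2 : ℝ) ^ (J + 1) = (1 / 2 : ℝ) ^ J / 2 := by rw [pow_succ]; ring
      rw [h3]
      have h4 : ((1 / 2 : ℝ) ^ J / 2) * ((l.totient : ℝ)⁻¹ / (1 / 2 : ℝ) ^ J - C) ≤
          ((1 / 2 : ℝ) ^ J / 2) * ∑' n, mD l ((1 / 2 : ℝ) ^ J) n := by
        apply mul_le_mul_of_nonneg_left h2
        positivity
      have h5 : ((1 / 2 : ℝ) ^ J / 2) * ((l.totient : ℝ)⁻¹ / (1 / 2 : ℝ) ^ J - C) =
          1 / (2 * (l.totient : ℝ)) - C * ((1 / 2 : ℝ) ^ J / 2) := by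
        have h6 : (l.totient : ℝ) ≠ 0 := by
          have := Nat.totient_pos.mpr (show 0 < l by omega)
          positivity
        field_simp
      rw [h5] at h4
      push_cast
      rw [add_div]
      linarith
  intro J
  refine le_trans ?_ (key J)
  have : 0 ≤ C * (1 / 2 : ℝ) ^ J := by positivity
  linarith

/-- `∑ 1/p ^ (1+s)` over a block by Mertens' theorem -/
lemma mBlock (l : ℕ) {z k : ℕ} (hz : 3 ≤ z) (hk : 1 ≤ k) {s : ℝ} (hs : 0 < s)
    (hs1 : 1 ≤ s * Real.log z) :
    ∑ n ∈ Ioc (z ^ k) (z ^ (k + 1)), mP l s n ≤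
      (1 + (Real.log 4 + (1 + Pool.Agent.helper91.Mertens.Cpp))) * Real.exp (-k) := by
  have hzpos : (0 : ℝ) < z := by exact_mod_cast (by omega : 0 < z)
  have hlogz : 1 ≤ Real.log z := by
    have h1 : Real.exp 1 ≤ z := by
      have := Real.exp_one_lt_d9
      have h3 : (3 : ℝ) ≤ z := by exact_mod_cast hz
      linarith
    calc (1 : ℝ) = Real.log (Real.exp 1) := (Real.log_exp 1).symm
      _ ≤ Real.log z := Real.log_le_log (Real.exp_pos _) h1
  have hkpos : (0 : ℝ) < k := by exact_mod_cast hk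
  have hklog : 0 < (k : ℝ) * Real.log z := by positivity
  -- termwise bound
  have hterm : ∀ n ∈ Ioc (z ^ k) (z ^ (k + 1)), mP l s n ≤
      (Real.exp (-k) / (k * Real.log z)) * (if n.Prime then Real.log n / n else 0) := by
    intro n hn
    rw [mem_Ioc] at hn
    unfold mP
    split_ifs with h1 h2 h2
    · have hnpos : (0 : ℝ) < n := by exact_mod_cast h2.pos
      have hzk : ((z : ℝ) ^ k) ≤ n := by exact_mod_cast hn.1.le
      have hlogn : (k : ℝ) * Real.log z ≤ Real.log n := by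
        rw [← Real.log_pow]
        exact Real.log_le_log (by positivity) hzk
      have h3 : (n : ℝ) ^ (1 + s) = n * (n : ℝ) ^ s := by
        rw [Real.rpow_add hnpos, Real.rpow_one]
      have h4 : Real.exp k ≤ (n : ℝ) ^ s := by
        rw [Real.rpow_def_of_pos hnpos]
        apply Real.exp_le_exp.mpr
        nlinarith
      have h5 : ((n : ℝ) ^ s)⁻¹ ≤ Real.exp (-k) := by
        rw [Real.exp_neg]
        exact inv_anti₀ (Real.exp_pos _) h4
      rw [h3, mul_inv]
      have h6 : 1 ≤ Real.log n / (k * Real.log z) := by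
        rw [le_div_iff₀ hklog]; linarith
      have h7 : (0 : ℝ) < (n : ℝ)⁻¹ := by positivity
      calc (n : ℝ)⁻¹ * ((n : ℝ) ^ s)⁻¹ ≤ (n : ℝ)⁻¹ * Real.exp (-k) := by gcongr
        _ ≤ ((n : ℝ)⁻¹ * Real.exp (-k)) * (Real.log n / (k * Real.log z)) := by
          apply le_mul_of_one_le_right _ h6
          positivity
        _ = _ := by ring
    · exact absurd h1.1 h2
    · have := Real.log_natCast_nonneg n
      positivity
    · simp
  refine (sum_le_sum hterm).trans ?_
  rw [← mul_sum, ← sum_filter]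
  have hsub : ∑ n ∈ (Ioc (z ^ k) (z ^ (k + 1))).filter Nat.Prime, Real.log n / (n : ℝ) =
      Pool.Agent.helper91.Mertens.M (z ^ (k + 1)) - Pool.Agent.helper91.Mertens.M (z ^ k) := by
    rw [eq_sub_iff_add_eq, Pool.Agent.helper91.Mertens.M, Pool.Agent.helper91.Mertens.M,
      ← sum_union]
    · refine sum_congr ?_ (fun _ _ => rfl)
      ext n
      simp only [mem_union, mem_filter, mem_Ioc, Nat.mem_primesLE]
      have hle : z ^ k ≤ z ^ (k + 1) := Nat.pow_le_pow_right (by omega) (by omega)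
      constructor
      · rintro (h | h)
        · exact ⟨h.1.2, h.2⟩
        · exact ⟨h.1.trans hle, h.2⟩
      · intro h
        by_cases h8 : n ≤ z ^ k
        · exact Or.inr ⟨h8, h.2⟩
        · exact Or.inl ⟨⟨by omega, h.1⟩, h.2⟩
    · rw [disjoint_left]
      intro n h1 h2
      simp only [mem_filter, mem_Ioc, Nat.mem_primesLE] at h1 h2
      omega
  rw [hsub]
  have hz1 : 1 ≤ z ^ k := Nat.one_le_pow _ _ (by omega)
  have hz2 : 1 ≤ z ^ (k + 1) := Nat.one_le_pow _ _ (by omega)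
  have hu := Pool.Agent.helper91.Mertens.upper hz2
  have hlo := Pool.Agent.helper91.Mertens.lower hz1
  rw [Nat.cast_pow, Real.log_pow] at hu hlo
  push_cast at hu
  have hC := Pool.Agent.helper91.Mertens.Cpp_nonneg
  have hlog4 : 0 ≤ Real.log 4 := Real.log_nonneg (by norm_num)
  set C := Real.log 4 + (1 + Pool.Agent.helper91.Mertens.Cpp) with hCdef
  have hCnn : 0 ≤ C := by positivity
  have hdiff : Pool.Agent.helper91.Mertens.M (z ^ (k + 1)) -
      Pool.Agent.helper91.Mertens.M (z ^ k) ≤ Real.log z + C := by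
    rw [hCdef]; linarith
  have hk1 : (1 : ℝ) ≤ k := by exact_mod_cast hk
  have hfin : Real.log z + C ≤ (1 + C) * (k * Real.log z) := by
    have h1 : Real.log z ≤ k * Real.log z := by nlinarith
    have h2 : 1 ≤ k * Real.log z := by nlinarith
    nlinarith
  calc Real.exp (-k) / (k * Real.log z) * (Pool.Agent.helper91.Mertens.M (z ^ (k + 1)) -
      Pool.Agent.helper91.Mertens.M (z ^ k))
      ≤ Real.exp (-k) / (k * Real.log z) * ((1 + C) * (k * Real.log z)) := by
        apply mul_le_mul_of_nonneg_left (hdiff.trans hfin)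
        positivity
    _ = (1 + C) * Real.exp (-k) := by
        field_simp

/-- `2 * exp (-k)` telescopes below `2` -/
lemma mTail (l : ℕ) {z : ℕ} (hz : 3 ≤ z) {s : ℝ} (hs : 0 < s)
    (hs1 : 1 ≤ s * Real.log z) (K : ℕ) :
    ∑ n ∈ range (z ^ (K + 1) + 1), mP l s n ≤ ∑ n ∈ range (z + 1), mP l s n +
      (1 + (Real.log 4 + (1 + Pool.Agent.helper91.Mertens.Cpp))) * (1 - Real.exp (-K)) := by
  induction K with
  | zero => simp
  | succ K ih =>
    have hle : z ^ (K + 1) ≤ z ^ (K + 1 + 1) := Nat.pow_le_pow_right (by omega) (by omega)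
    have hsplit : ∑ n ∈ range (z ^ (K + 1 + 1) + 1), mP l s n =
        ∑ n ∈ range (z ^ (K + 1) + 1), mP l s n +
          ∑ n ∈ Ioc (z ^ (K + 1)) (z ^ (K + 1 + 1)), mP l s n := by
      rw [← sum_union]
      · refine sum_congr ?_ (fun _ _ => rfl)
        ext n
        simp only [mem_union, mem_range, mem_Ioc]
        omega
      · rw [disjoint_left]
        intro n h1 h2
        simp only [mem_range, mem_Ioc] at h1 h2
        omega
    have hb := mBlock l hz (show 1 ≤ K + 1 by omega) hs hs1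
    rw [hsplit]
    have hC := Pool.Agent.helper91.Mertens.Cpp_nonneg
    have hlog4 : 0 ≤ Real.log 4 := Real.log_nonneg (by norm_num)
    have hexp : Real.exp (-((K + 1 : ℕ) : ℝ)) * 2 ≤ Real.exp (-(K : ℝ)) := by
      have h1 : Real.exp (-(K : ℝ)) = Real.exp 1 * Real.exp (-((K + 1 : ℕ) : ℝ)) := by
        rw [← Real.exp_add]; congr 1; push_cast; ring
      have h2 := Real.exp_one_gt_d9
      have h3 := Real.exp_pos (-((K + 1 : ℕ) : ℝ))
      rw [h1]; nlinarith
    set C := (1 + (Real.log 4 + (1 + Pool.Agent.helper91.Mertens.Cpp))) with hCdef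
    have hCnn : 0 ≤ C := by positivity
    have h9 : C * Real.exp (-((K + 1 : ℕ) : ℝ)) ≤
        C * (1 - Real.exp (-((K + 1 : ℕ) : ℝ))) - C * (1 - Real.exp (-(K : ℝ))) := by
      have : C * (Real.exp (-((K + 1 : ℕ) : ℝ)) * 2) ≤ C * Real.exp (-(K : ℝ)) :=
        mul_le_mul_of_nonneg_left hexp hCnn
      linarith
    linarith

/-- (3) -/
lemma mP_upper (l : ℕ) {z : ℕ} (hz : 3 ≤ z) {s : ℝ} (hs : 0 < s)
    (hs1 : 1 ≤ s * Real.log z) :
    ∑' n, mP l s n ≤ ∑ p ∈ (range (z + 1)).filter (fun p => p.Prime ∧ p % l = 1), (1 : ℝ) / p +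
      (1 + (Real.log 4 + (1 + Pool.Agent.helper91.Mertens.Cpp))) := by
  refine (mP_summable l hs).tsum_le_of_sum_range_le (fun N => ?_)
  have hC := Pool.Agent.helper91.Mertens.Cpp_nonneg
  have hlog4 : 0 ≤ Real.log 4 := Real.log_nonneg (by norm_num)
  have h1 : ∑ n ∈ range N, mP l s n ≤ ∑ n ∈ range (z ^ (N + 1) + 1), mP l s n := by
    refine sum_le_sum_of_subset_of_nonneg ?_ (fun n _ _ => mP_nonneg l s n)
    intro n hn
    rw [mem_range] at hn ⊢
    have h2 : N + 1 < z ^ (N + 1) := Nat.lt_pow_self (by omega)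
    omega
  have h2 := mTail l hz hs hs1 N
  have h3 : ∑ n ∈ range (z + 1), mP l s n ≤
      ∑ p ∈ (range (z + 1)).filter (fun p => p.Prime ∧ p % l = 1), (1 : ℝ) / p := by
    rw [sum_filter]
    refine sum_le_sum (fun n _ => ?_)
    unfold mP mPr
    split_ifs with h
    · have hn1 : (1 : ℝ) ≤ n := by exact_mod_cast h.1.one_le
      rw [one_div]
      refine inv_anti₀ (by positivity) ?_
      calc (n : ℝ) = (n : ℝ) ^ (1 : ℝ) := (Real.rpow_one _).symm
        _ ≤ (n : ℝ) ^ (1 + s) := Real.rpow_le_rpow_of_exponent_le hn1 (by linarith)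
    · exact le_rfl
  have h4 : (1 + (Real.log 4 + (1 + Pool.Agent.helper91.Mertens.Cpp))) *
      (1 - Real.exp (-(N : ℝ))) ≤ (1 + (Real.log 4 + (1 + Pool.Agent.helper91.Mertens.Cpp))) := by
    have h5 := Real.exp_pos (-(N : ℝ))
    have h6 : 0 ≤ (1 + (Real.log 4 + (1 + Pool.Agent.helper91.Mertens.Cpp))) := by positivity
    nlinarith
  linarith

theorem mertens_ap (l : ℕ) (hl : 2 ≤ l) : ∃ δ C : ℝ, 0 < δ ∧ ∀ z : ℕ, 3 ≤ z →
    δ * Real.log (Real.log z) - C ≤
      ∑ p ∈ (range (z + 1)).filter (fun p => p.Prime ∧ p % l = 1), (1 : ℝ) / p := by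
  obtain ⟨C, hC, hP⟩ := mP_lower l hl
  have htot : (0 : ℝ) < l.totient := by
    exact_mod_cast Nat.totient_pos.mpr (show 0 < l by omega)
  have hlog2 : 0 < Real.log 2 := Real.log_pos (by norm_num)
  refine ⟨1 / (2 * l.totient * Real.log 2), 1 / (2 * l.totient) + C +
    (1 + (Real.log 4 + (1 + Pool.Agent.helper91.Mertens.Cpp))), by positivity, fun z hz => ?_⟩
  have hlogz : 1 ≤ Real.log z := by
    have h1 : Real.exp 1 ≤ z := by
      have := Real.exp_one_lt_d9
      have h3 : (3 : ℝ) ≤ z := by exact_mod_cast hz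
      linarith
    calc (1 : ℝ) = Real.log (Real.exp 1) := (Real.log_exp 1).symm
      _ ≤ Real.log z := Real.log_le_log (Real.exp_pos _) h1
  have hll : 0 ≤ Real.log (Real.log z) := Real.log_nonneg hlogz
  set J : ℕ := ⌊Real.log (Real.log z) / Real.log 2⌋₊ with hJ
  have hJ1 : (J : ℝ) ≤ Real.log (Real.log z) / Real.log 2 := Nat.floor_le (by positivity)
  have hJ2 : Real.log (Real.log z) / Real.log 2 < J + 1 := Nat.lt_floor_add_one _
  have hJ3 : (2 : ℝ) ^ J ≤ Real.log z := by
    rw [le_div_iff₀ hlog2, ← Real.log_pow] at hJ1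
    exact (Real.log_le_log_iff (by positivity) (by linarith)).mp hJ1
  have hs1 : 1 ≤ (1 / 2 : ℝ) ^ J * Real.log z := by
    rw [one_div, inv_pow]
    rw [← div_eq_inv_mul, le_div_iff₀ (by positivity)]
    linarith
  have h1 := mP_upper l hz (show (0 : ℝ) < (1 / 2 : ℝ) ^ J by positivity) hs1
  have h2 := hP J
  have h3 : 1 / (2 * (l.totient : ℝ) * Real.log 2) * Real.log (Real.log z) - 1 / (2 * l.totient) ≤
      (J : ℝ) / (2 * l.totient) := by
    have h4 : 1 / (2 * (l.totient : ℝ) * Real.log 2) * Real.log (Real.log z) =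
        (Real.log (Real.log z) / Real.log 2) / (2 * l.totient) := by
      field_simp
    rw [h4, ← sub_div, div_le_div_iff_of_pos_right (by positivity)]
    linarith
  linarith

end Pool.Agent.helper20.MPN
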