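import Pool.Agent.helper20.MPN.S
import Pool.Agent.helper20.MPN.R
import Pool.Agent.helper20.MPN.M
import Pool.Agent.helper20.MPN.L
import Pool.Agent.helper20.MPN.C
import Pool.Agent.helper91.Mertens

set_option autoImplicit false

/-!
# MPN-G: primes `q` such that `1 + q + ... + q ^ (l - 1)` has no small prime factor
-/

namespace Pool.Agent.helper20.MPN

open Finset

/-- the sieving primes -/
def PP (w : ℕ) : Finset ℕ := (range (w + 1)).filter fun p => p.Prime ∧ 3 ≤ p

/-- the removed classes -/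
def RR (l p : ℕ) : Finset ℕ := if p % l = 1 then insert 0 (roots l p) else {0}

theorem G_mem_PP {w p : ℕ} : p ∈ PP w ↔ p ≤ w ∧ p.Prime ∧ 3 ≤ p := by
  unfold PP
  rw [Finset.mem_filter, Finset.mem_range, Nat.lt_succ_iff]

theorem G_zero_notMem {l p : ℕ} (hl : 0 < l) (hp : p.Prime) : 0 ∉ roots l p := by
  unfold roots
  rw [Finset.mem_filter]
  rintro ⟨-, h⟩
  rw [C_cyc_zero hl] at h
  exact hp.one_lt.ne' (Nat.dvd_one.1 h)

theorem G_card_RR {l p : ℕ} (hl : l.Prime) (hp : p.Prime) :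
    (RR l p).card = if p % l = 1 then l else 1 := by
  unfold RR
  split_ifs with h
  · rw [Finset.card_insert_of_notMem (G_zero_notMem hl.pos hp), C_card_roots hl hp h]
    have := hl.pos
    omega
  · rfl

theorem G_card_pos {l p : ℕ} (hl : l.Prime) (hp : p.Prime) : 1 ≤ (RR l p).card := by
  rw [G_card_RR hl hp]
  have := hl.pos
  split_ifs <;> omega

theorem G_card_le {l p : ℕ} (hl : l.Prime) (hp : p.Prime) : (RR l p).card ≤ l := by
  rw [G_card_RR hl hp]
  have := hl.pos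
  split_ifs <;> omega

theorem G_card_lt {l p : ℕ} (hl : l.Prime) (hp : p.Prime) : (RR l p).card + 1 ≤ p := by
  rw [G_card_RR hl hp]
  split_ifs with h
  · have h1 := Nat.div_add_mod p l
    rw [h] at h1
    have h2 : 0 < p / l := by
      rcases Nat.eq_zero_or_pos (p / l) with h3 | h3
      · rw [h3] at h1
        have := hp.one_lt
        omega
      · exact h3
    have h3 : l * 1 ≤ l * (p / l) := Nat.mul_le_mul_left _ h2
    omega
  · exact hp.two_le

theorem G_RR_sub {l p : ℕ} (hp : p.Prime) : RR l p ⊆ range p := by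
  unfold RR
  split_ifs
  · intro x hx
    rcases Finset.mem_insert.1 hx with rfl | hx
    · exact Finset.mem_range.2 hp.pos
    · unfold roots at hx
      exact (Finset.mem_filter.1 hx).1
  · intro x hx
    rw [Finset.mem_singleton.1 hx]
    exact Finset.mem_range.2 hp.pos

/-- the weight -/
noncomputable def hh (l p : ℕ) : ℝ := ((RR l p).card : ℝ) / ((p : ℝ) - (RR l p).card)

theorem G_sub_pos {l p : ℕ} (hl : l.Prime) (hp : p.Prime) :
    (1 : ℝ) ≤ (p : ℝ) - (RR l p).card := by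
  have := G_card_lt hl hp
  have h : ((RR l p).card : ℝ) + 1 ≤ p := by exact_mod_cast this
  linarith

theorem G_hh_nonneg {l p : ℕ} (hl : l.Prime) (hp : p.Prime) : 0 ≤ hh l p :=
  div_nonneg (Nat.cast_nonneg _) (by linarith [G_sub_pos hl hp])

theorem G_hh_le {l p : ℕ} (hl : l.Prime) (hp : p.Prime) :
    hh l p ≤ (l : ℝ) * (l + 1) / p := by
  have h1 : (((RR l p).card : ℕ) : ℝ) ≤ l := by exact_mod_cast G_card_le hl hp
  have h2 := G_sub_pos hl hp
  have h3 : (0 : ℝ) ≤ ((RR l p).card : ℝ) := Nat.cast_nonneg _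
  have hp0 : (0 : ℝ) < p := by exact_mod_cast hp.pos
  unfold hh
  set r : ℝ := ((RR l p).card : ℝ)
  rw [div_le_div_iff₀ (by linarith) hp0]
  have h4 : r * p ≤ r * (r + 1) * (p - r) := by
    have h6 : (p : ℝ) ≤ (r + 1) * (p - r) := by nlinarith [mul_nonneg h3 (sub_nonneg.2 h2)]
    calc r * p ≤ r * ((r + 1) * (p - r)) := mul_le_mul_of_nonneg_left h6 h3
      _ = r * (r + 1) * (p - r) := by ring
  have h5 : r * (r + 1) * (p - r) ≤ l * (l + 1) * (p - r) := by
    apply mul_le_mul_of_nonneg_right _ (by linarith)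
    nlinarith
  linarith

theorem G_one_add {l p : ℕ} (hl : l.Prime) (hp : p.Prime) :
    Real.exp (((RR l p).card : ℝ) / p) ≤ 1 + hh l p := by
  have h2 := G_sub_pos hl hp
  have hp0 : (0 : ℝ) < p := by exact_mod_cast hp.pos
  unfold hh
  set r : ℝ := ((RR l p).card : ℝ)
  have h3 : 1 - r / p ≤ Real.exp (-(r / p)) := Real.one_sub_le_exp_neg _
  have h4 : 0 < 1 - r / p := by
    rw [sub_pos, div_lt_one hp0]
    linarith
  have h5 : 1 + r / (p - r) = (1 - r / p)⁻¹ := by
    have : (p : ℝ) - r ≠ 0 := by linarith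
    field_simp
    ring
  rw [h5, ← neg_neg (r / p), Real.exp_neg]
  rw [neg_neg] at *
  exact inv_anti₀ h4 h3


theorem G_sum_log_le {l : ℕ} (hl : l.Prime) {w : ℕ} (hw : 2 ≤ w) :
    ∑ p ∈ PP w, hh l p * Real.log p ≤ (3 * (l * (l + 1)) : ℝ) * Real.log w := by
  have h1 : ∑ p ∈ PP w, hh l p * Real.log p ≤
      ∑ p ∈ PP w, ((l : ℝ) * (l + 1)) * (Real.log p / p) := by
    apply Finset.sum_le_sum
    intro p hp
    rw [G_mem_PP] at hp
    have h2 := G_hh_le hl hp.2.1
    have h3 : 0 ≤ Real.log p := Real.log_natCast_nonneg p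
    calc hh l p * Real.log p ≤ ((l : ℝ) * (l + 1) / p) * Real.log p :=
          mul_le_mul_of_nonneg_right h2 h3
      _ = ((l : ℝ) * (l + 1)) * (Real.log p / p) := by ring
  have h2 : ∑ p ∈ PP w, (Real.log p / p) ≤ Real.log w + Real.log 4 := by
    refine le_trans ?_ (Pool.Agent.helper91.Mertens.upper (N := w) (by omega))
    unfold Pool.Agent.helper91.Mertens.M
    apply Finset.sum_le_sum_of_subset_of_nonneg
    · intro p hp
      rw [G_mem_PP] at hp
      exact Nat.mem_primesLE.2 ⟨hp.1, hp.2.1⟩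
    · intro p _ _
      exact div_nonneg (Real.log_natCast_nonneg p) (Nat.cast_nonneg p)
  have h3 : Real.log 4 ≤ 2 * Real.log w := by
    have : Real.log 4 = 2 * Real.log 2 := by
      rw [show (4 : ℝ) = 2 ^ 2 by norm_num, Real.log_pow]
      norm_num
    rw [this]
    have : Real.log 2 ≤ Real.log w := Real.log_le_log (by norm_num) (by exact_mod_cast hw)
    linarith
  rw [← Finset.mul_sum] at h1
  have h4 : (0 : ℝ) ≤ (l : ℝ) * (l + 1) := by positivity
  calc ∑ p ∈ PP w, hh l p * Real.log p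
      ≤ ((l : ℝ) * (l + 1)) * ∑ p ∈ PP w, (Real.log p / p) := h1
    _ ≤ ((l : ℝ) * (l + 1)) * (3 * Real.log w) := by
        apply mul_le_mul_of_nonneg_left _ h4
        linarith
    _ = (3 * (l * (l + 1)) : ℝ) * Real.log w := by ring

theorem G_sum_lower {l : ℕ} (hl : l.Prime) : ∃ δ C : ℝ, 0 < δ ∧ ∀ w : ℕ, 3 ≤ w →
    (1 + δ) * Real.log (Real.log w) - C ≤ ∑ p ∈ PP w, (((RR l p).card : ℝ) / p) := by
  obtain ⟨δ, C1, hδ, h1⟩ := mertens_ap l hl.two_le
  obtain ⟨C2, h2⟩ := sum_inv_lower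
  have hl1 : (1 : ℝ) ≤ (l : ℝ) - 1 := by
    have : (2 : ℝ) ≤ l := by exact_mod_cast hl.two_le
    linarith
  refine ⟨((l : ℝ) - 1) * δ, C2 + 1 / 2 + ((l : ℝ) - 1) * C1, by positivity, fun w hw => ?_⟩
  have h3 := h1 w hw
  have h4 := h2 w hw
  have h5 : ∑ p ∈ (range (w + 1)).filter Nat.Prime, (1 : ℝ) / p ≤
      ∑ p ∈ PP w, (1 : ℝ) / p + 1 / 2 := by
    have h6 : (range (w + 1)).filter Nat.Prime ⊆ insert 2 (PP w) := by
      intro p hp
      rw [Finset.mem_filter, Finset.mem_range] at hp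
      rw [Finset.mem_insert, G_mem_PP]
      have := hp.2.two_le
      rcases this.eq_or_lt with h | h
      · exact Or.inl h.symm
      · exact Or.inr ⟨by omega, hp.2, h⟩
    calc ∑ p ∈ (range (w + 1)).filter Nat.Prime, (1 : ℝ) / p
        ≤ ∑ p ∈ insert 2 (PP w), (1 : ℝ) / p :=
          Finset.sum_le_sum_of_subset_of_nonneg h6 fun p _ _ => by positivity
      _ = ∑ p ∈ PP w, (1 : ℝ) / p + 1 / 2 := by
          rw [Finset.sum_insert]
          · push_cast
            ring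
          · rw [G_mem_PP]
            omega
  have h7 : ∑ p ∈ PP w, (((RR l p).card : ℝ) / p) =
      ∑ p ∈ PP w, (1 : ℝ) / p +
        ((l : ℝ) - 1) * ∑ p ∈ (PP w).filter (fun p => p % l = 1), (1 : ℝ) / p := by
    rw [Finset.sum_filter, Finset.mul_sum, ← Finset.sum_add_distrib]
    apply Finset.sum_congr rfl
    intro p hp
    rw [G_mem_PP] at hp
    rw [G_card_RR hl hp.2.1]
    split_ifs
    · ring
    · push_cast
      ring
  have h8 : ∑ p ∈ (range (w + 1)).filter (fun p => p.Prime ∧ p % l = 1), (1 : ℝ) / p ≤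
      ∑ p ∈ (PP w).filter (fun p => p % l = 1), (1 : ℝ) / p := by
    apply Finset.sum_le_sum_of_subset_of_nonneg
    · intro p hp
      rw [Finset.mem_filter, Finset.mem_range] at hp
      rw [Finset.mem_filter, G_mem_PP]
      refine ⟨⟨by omega, hp.2.1, ?_⟩, hp.2.2⟩
      rcases hp.2.1.two_le.eq_or_lt with h | h
      · exfalso
        have h9 := hp.2.2
        rw [← h] at h9
        rcases hl.two_le.eq_or_lt with h10 | h10
        · rw [← h10] at h9
          omega
        · rw [Nat.mod_eq_of_lt h10] at h9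
          omega
      · exact h
    · intro p _ _
      positivity
  rw [h7]
  have h9 : ((l : ℝ) - 1) * (δ * Real.log (Real.log w) - C1) ≤
      ((l : ℝ) - 1) * ∑ p ∈ (PP w).filter (fun p => p % l = 1), (1 : ℝ) / p :=
    mul_le_mul_of_nonneg_left (h3.trans h8) (by linarith)
  nlinarith

/-- lower bound for the sieve sum -/
theorem G_lower {l : ℕ} (hl : l.Prime) : ∃ (δ c : ℝ) (s : ℕ), 0 < δ ∧ δ ≤ 1 ∧ 0 < c ∧ 0 < s ∧
    ∀ w : ℕ, 3 ≤ w → c * (Real.log w) ^ (1 + δ) ≤ gG (PP w) (RR l) (w ^ s) := by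
  obtain ⟨δ, C, hδ, h1⟩ := G_sum_lower hl
  refine ⟨min δ 1, 1 / 2 * Real.exp (-C), 6 * (l * (l + 1)) + 1, lt_min hδ one_pos,
    min_le_right _ _, by positivity, by omega, fun w hw => ?_⟩
  have hlog : 1 ≤ Real.log w := by
    have h3 : Real.exp 1 ≤ w := by
      have : (3 : ℝ) ≤ w := by exact_mod_cast hw
      linarith [Real.exp_one_lt_three]
    have := Real.log_le_log (Real.exp_pos 1) h3
    rwa [Real.log_exp] at this
  have h2 := rankin (PP w) (fun p hp => (G_mem_PP.1 hp).2.1) (hh l)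
    (fun p hp => G_hh_nonneg hl (G_mem_PP.1 hp).2.1) w (by omega)
    (fun p hp => (G_mem_PP.1 hp).1) (3 * (l * (l + 1))) (G_sum_log_le hl (by omega))
    (6 * (l * (l + 1)) + 1) (by push_cast; linarith)
  have h3 : Real.exp (∑ p ∈ PP w, (((RR l p).card : ℝ) / p)) ≤ ∏ p ∈ PP w, (1 + hh l p) := by
    rw [Real.exp_sum]
    exact Finset.prod_le_prod (fun p _ => (Real.exp_pos _).le)
      fun p hp => G_one_add hl (G_mem_PP.1 hp).2.1
  have h4 : Real.exp (-C) * (Real.log w) ^ (1 + min δ 1) ≤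
      Real.exp (∑ p ∈ PP w, (((RR l p).card : ℝ) / p)) := by
    have h5 : (Real.log w) ^ (1 + min δ 1) ≤ (Real.log w) ^ (1 + δ) :=
      Real.rpow_le_rpow_of_exponent_le hlog (by linarith [min_le_left δ 1])
    have h6 : (Real.log w) ^ (1 + δ) = Real.exp ((1 + δ) * Real.log (Real.log w)) := by
      rw [Real.rpow_def_of_pos (by linarith), mul_comm]
    calc Real.exp (-C) * (Real.log w) ^ (1 + min δ 1)
        ≤ Real.exp (-C) * Real.exp ((1 + δ) * Real.log (Real.log w)) := by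
          rw [← h6]
          exact mul_le_mul_of_nonneg_left h5 (Real.exp_pos _).le
      _ = Real.exp ((1 + δ) * Real.log (Real.log w) - C) := by
          rw [← Real.exp_add]
          congr 1
          ring
      _ ≤ _ := Real.exp_le_exp.2 (h1 w hw)
  have h5 : gG (PP w) (RR l) (w ^ (6 * (l * (l + 1)) + 1)) =
      ∑ S ∈ (PP w).powerset.filter (fun S => ∏ p ∈ S, p ≤ w ^ (6 * (l * (l + 1)) + 1)),
        ∏ p ∈ S, hh l p := rfl
  rw [h5]
  calc 1 / 2 * Real.exp (-C) * (Real.log w) ^ (1 + min δ 1)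
      = 1 / 2 * (Real.exp (-C) * (Real.log w) ^ (1 + min δ 1)) := by ring
    _ ≤ 1 / 2 * ∏ p ∈ PP w, (1 + hh l p) :=
        mul_le_mul_of_nonneg_left (h4.trans h3) (by norm_num)
    _ ≤ _ := h2

theorem G_sq_le (m : ℕ) : (2 * m + 1) ^ 2 ≤ 9 * 2 ^ m := by
  induction m with
  | zero => norm_num
  | succ m ih =>
    rcases Nat.lt_or_ge m 2 with h | h
    · interval_cases m <;> norm_num
    · have : (2 * (m + 1) + 1) ^ 2 ≤ 2 * (2 * m + 1) ^ 2 := by nlinarith
      calc (2 * (m + 1) + 1) ^ 2 ≤ 2 * (2 * m + 1) ^ 2 := this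
        _ ≤ 2 * (9 * 2 ^ m) := by omega
        _ = 9 * 2 ^ (m + 1) := by ring

theorem G_pow_half (j : ℕ) : j ^ 2 * 2 ^ (j / 2) ≤ 9 * 2 ^ j := by
  have h1 := G_sq_le (j - j / 2)
  have h2 : j ≤ 2 * (j - j / 2) + 1 := by omega
  have h3 : j ^ 2 ≤ (2 * (j - j / 2) + 1) ^ 2 := Nat.pow_le_pow_left h2 2
  calc j ^ 2 * 2 ^ (j / 2) ≤ (9 * 2 ^ (j - j / 2)) * 2 ^ (j / 2) :=
        Nat.mul_le_mul_right _ (h3.trans h1)
    _ = 9 * 2 ^ j := by
        rw [mul_assoc, ← pow_add]
        congr 2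
        omega

/-- the primes of a dyadic interval for which `cyc l q` has no small prime factor -/
noncomputable def Sd (l t j : ℕ) : Finset ℕ := by
  classical
  exact (Ioc (2 ^ j) (2 ^ (j + 1))).filter fun q => q.Prime ∧
    ∀ Q : ℕ, Q.Prime → Q ≤ 2 ^ (j / t) → ¬ Q ∣ cyc l q

theorem G_mem_Sd {l t j q : ℕ} : q ∈ Sd l t j ↔ (2 ^ j < q ∧ q ≤ 2 ^ (j + 1)) ∧ q.Prime ∧
    ∀ Q : ℕ, Q.Prime → Q ≤ 2 ^ (j / t) → ¬ Q ∣ cyc l q := by
  classical
  unfold Sd
  rw [Finset.mem_filter, Finset.mem_Ioc]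

/-- the number of primes in a dyadic interval for which `cyc l q` has no small prime factor -/
theorem sieve_dyadic {l : ℕ} (hl : l.Prime) : ∃ (δ K : ℝ) (t : ℕ), 0 < δ ∧ δ ≤ 1 ∧ 0 ≤ K ∧ 8 ≤ t ∧
    ∀ j : ℕ, 1 ≤ j → ((Sd l t j).card : ℝ) ≤ K * (2 ^ j / (j : ℝ) ^ (1 + δ)) := by
  obtain ⟨δ, c, s, hδ, hδ1, hc, hs, hG⟩ := G_lower hl
  set t : ℕ := 8 * s with ht
  have htpos : 0 < t := by omega
  have ht0 : (0 : ℝ) < t := by exact_mod_cast htpos
  have hlog2 : 0 < Real.log 2 := Real.log_pos (by norm_num)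
  set a : ℝ := Real.log 2 / (2 * t) with ha
  have ha0 : 0 < a := by positivity
  have ha1 : 0 < a ^ (1 + δ) := Real.rpow_pos_of_pos ha0 _
  refine ⟨δ, 3 / (c * a ^ (1 + δ)) + 9 + (2 * t : ℝ) ^ 2, t, hδ, hδ1, by positivity, by omega,
    fun j hj => ?_⟩
  set A : Finset ℕ := Sd l t j with hA
  have hj0 : (1 : ℝ) ≤ j := by exact_mod_cast hj
  have hjp : 0 < (j : ℝ) ^ (1 + δ) := Real.rpow_pos_of_pos (by linarith) _
  have hj2 : (j : ℝ) ^ (1 + δ) ≤ (j : ℝ) ^ 2 := by
    rw [← Real.rpow_natCast]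
    exact Real.rpow_le_rpow_of_exponent_le hj0 (by push_cast; linarith)
  have h2j : (0 : ℝ) < 2 ^ j := by positivity
  rcases Nat.lt_or_ge j (2 * t) with hjt | hjt
  · -- trivial bound
    have h1 : (A.card : ℝ) ≤ 2 ^ j := by
      have h2 : A.card ≤ 2 ^ j := by
        have h5 : A ⊆ Ioc (2 ^ j) (2 ^ (j + 1)) := fun q hq => by
          rw [hA, G_mem_Sd] at hq
          exact Finset.mem_Ioc.2 hq.1
        refine (Finset.card_le_card h5).trans ?_
        rw [Nat.card_Ioc, pow_succ]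
        omega
      exact_mod_cast h2
    have h3 : (j : ℝ) ^ (1 + δ) ≤ (2 * t : ℝ) ^ 2 := by
      refine hj2.trans ?_
      have : (j : ℝ) ≤ 2 * t := by exact_mod_cast hjt.le
      exact pow_le_pow_left₀ (by linarith) this 2
    have h4 : (1 : ℝ) ≤ (3 / (c * a ^ (1 + δ)) + 9 + (2 * t : ℝ) ^ 2) / (j : ℝ) ^ (1 + δ) := by
      rw [le_div_iff₀ hjp, one_mul]
      have : 0 ≤ 3 / (c * a ^ (1 + δ)) := by positivity
      linarith
    calc (A.card : ℝ) ≤ 2 ^ j := h1
      _ = 2 ^ j * 1 := by ring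
      _ ≤ 2 ^ j * ((3 / (c * a ^ (1 + δ)) + 9 + (2 * t : ℝ) ^ 2) / (j : ℝ) ^ (1 + δ)) :=
          mul_le_mul_of_nonneg_left h4 h2j.le
      _ = _ := by ring
  · -- the sieve
    set w : ℕ := 2 ^ (j / t) with hw
    have hjt2 : 2 ≤ j / t := (Nat.le_div_iff_mul_le htpos).2 hjt
    have hw4 : 4 ≤ w := by
      calc 4 = 2 ^ 2 := by norm_num
        _ ≤ w := Nat.pow_le_pow_right (by norm_num) hjt2
    have hwj : w ≤ 2 ^ j := Nat.pow_le_pow_right (by norm_num) (Nat.div_le_self _ _)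
    have hsieve := gsieve (PP w) (fun p hp => (G_mem_PP.1 hp).2.1) (RR l)
      (fun p hp => G_RR_sub (G_mem_PP.1 hp).2.1)
      (fun p hp => Finset.card_pos.1 (G_card_pos hl (G_mem_PP.1 hp).2.1))
      (fun p hp => G_card_lt hl (G_mem_PP.1 hp).2.1) (w ^ s) (2 ^ (j + 1) + 1) A
      (by
        intro q hq
        rw [hA, G_mem_Sd] at hq
        rw [Finset.mem_range, Nat.lt_succ_iff]
        exact hq.1.2)
      (by
        intro q hq p hp
        rw [hA, G_mem_Sd] at hq
        rw [G_mem_PP] at hp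
        have h0 : q % p ≠ 0 := by
          intro h
          have h1 : p ∣ q := Nat.dvd_of_mod_eq_zero h
          have h2 : p = q := (Nat.prime_dvd_prime_iff_eq hp.2.1 hq.2.1).1 h1
          have h3 := hq.1.1
          have h4 := hp.1
          omega
        have h5 : q % p ∉ roots l p := by
          intro h
          unfold roots at h
          rw [Finset.mem_filter, C_dvd_mod] at h
          exact hq.2.2 p hp.2.1 hp.1 h.2
        unfold RR
        split_ifs
        · rw [Finset.mem_insert]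
          rintro (h | h)
          · exact h0 h
          · exact h5 h
        · rw [Finset.mem_singleton]
          exact h0)
    have hGl := hG w (by omega)
    set g : ℝ := gG (PP w) (RR l) (w ^ s) with hg
    -- lower bound of g
    have hdiv : (j : ℝ) / (2 * t) ≤ ((j / t : ℕ) : ℝ) := by
      rw [div_le_iff₀ (by positivity)]
      have h1 : j < t * (j / t + 1) := Nat.lt_mul_div_succ j htpos
      have h2 : j ≤ (j / t) * (2 * t) := by
        have h3 : t * (j / t + 1) ≤ t * (j / t + j / t) := Nat.mul_le_mul_left _ (by omega)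
        have h4 : t * (j / t + j / t) = (j / t) * (2 * t) := by ring
        omega
      exact_mod_cast h2
    have hlogw : a * j ≤ Real.log w := by
      rw [hw]
      push_cast
      rw [Real.log_pow, ha]
      calc Real.log 2 / (2 * t) * j = (j / (2 * t)) * Real.log 2 := by ring
        _ ≤ _ := mul_le_mul_of_nonneg_right hdiv hlog2.le
    have hgl : c * (a ^ (1 + δ) * (j : ℝ) ^ (1 + δ)) ≤ g := by
      refine le_trans ?_ hGl
      apply mul_le_mul_of_nonneg_left _ hc.le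
      rw [← Real.mul_rpow ha0.le (by linarith)]
      exact Real.rpow_le_rpow (by positivity) hlogw (by linarith)
    have hg0 : 0 < g := lt_of_lt_of_le (by positivity) hgl
    have hQ4 : (((w ^ s : ℕ) : ℝ)) ^ 4 ≤ 2 ^ (j / 2) := by
      have h1 : (w ^ s) ^ 4 ≤ 2 ^ (j / 2) := by
        rw [hw, ← pow_mul, ← pow_mul]
        apply Nat.pow_le_pow_right (by norm_num)
        rw [Nat.le_div_iff_mul_le (by norm_num)]
        calc j / t * (s * 4) * 2 = j / t * t := by rw [ht]; ring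
          _ ≤ j := Nat.div_mul_le_self _ _
      exact_mod_cast h1
    have hA1 : (A.card : ℝ) ≤ (2 ^ (j + 1) + 1) / g + 2 ^ (j / 2) := by
      have h1 : (A.card : ℝ) * g ≤ (2 ^ (j + 1) + 1) + 2 ^ (j / 2) * g := by
        refine hsieve.trans ?_
        push_cast
        have := mul_le_mul_of_nonneg_right hQ4 hg0.le
        push_cast at this
        linarith
      rw [← sub_le_iff_le_add, le_div_iff₀ hg0]
      linarith
    have hA2 : (2 ^ (j + 1) + 1 : ℝ) / g ≤ 3 / (c * a ^ (1 + δ)) * (2 ^ j / (j : ℝ) ^ (1 + δ)) := by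
      have h1 : (2 ^ (j + 1) + 1 : ℝ) ≤ 3 * 2 ^ j := by
        have : (1 : ℝ) ≤ 2 ^ j := one_le_pow₀ (by norm_num)
        rw [pow_succ]
        linarith
      calc (2 ^ (j + 1) + 1 : ℝ) / g ≤ (3 * 2 ^ j) / (c * (a ^ (1 + δ) * (j : ℝ) ^ (1 + δ))) :=
            div_le_div₀ (by positivity) h1 (by positivity) hgl
        _ = _ := by
            field_simp
    have hA3 : (2 : ℝ) ^ (j / 2) ≤ 9 * (2 ^ j / (j : ℝ) ^ (1 + δ)) := by
      rw [← mul_div_assoc, le_div_iff₀ hjp]
      have h1 : ((j ^ 2 * 2 ^ (j / 2) : ℕ) : ℝ) ≤ ((9 * 2 ^ j : ℕ) : ℝ) := by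
        exact_mod_cast G_pow_half j
      push_cast at h1
      have h2 : (2 : ℝ) ^ (j / 2) * (j : ℝ) ^ (1 + δ) ≤ (2 : ℝ) ^ (j / 2) * (j : ℝ) ^ 2 :=
        mul_le_mul_of_nonneg_left hj2 (by positivity)
      linarith
    have hA4 : 0 ≤ (2 * t : ℝ) ^ 2 * (2 ^ j / (j : ℝ) ^ (1 + δ)) := by positivity
    nlinarith [hA1, hA2, hA3, hA4]

end Pool.Agent.helper20.MPN
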