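import Pool.Agent.helper20.MPN.Defs
import Pool.Agent.helper15.NTa

set_option autoImplicit false

/-!
# MPN-S: an elementary large sieve with arbitrary removed classes

Statement: helper20; proof: helper6 (after helper15's `NTb`).

PROOFS. Generalisation of `Pool/Agent/helper15/NTb.lean` (theorem `sieve`; there two classes `0, m`
are removed; copy that file and change the local factor).
Local factor: `g p n = -((p - r) / r)` if `n % p ∈ R p`, else `1`, where `r = (R p).card`.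
It is `p`-periodic, `∑_{u < p} g p u = -(p - r) + (p - r) = 0`,
`∑_{u < p} (g p u) ^ 2 = r ((p - r) / r) ^ 2 + (p - r) = p (p - r) / r = p / h p`, `h p = r / (p - r)`,
and `|g p n| ≤ p`.
For a finite set `S ⊆ P` put `g S n = ∏_{p ∈ S} g p n`, `h S = ∏ h p`, `q S = ∏ p`. By the Chinese
remainder theorem the sum of `g S n * g S' n` over a full period (`q S * q S'` or the product over
`S ∪ S'`) is `0` for `S ≠ S'` and the sum of `(g S n) ^ 2` over a period `q S` is `q S / h S`; an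
incomplete period costs at most `Q ^ 4` (`|g S n| ≤ q S ≤ Q`).
For `n ∈ A` all `g S n = 1`; so with `G = gG P R Q`, by Cauchy-Schwarz
`(|A| G) ^ 2 = (∑_{n ∈ A} ∑_S h S g S n) ^ 2 ≤ |A| ∑_{n < N} (∑_S h S g S n) ^ 2
 ≤ |A| (∑_S (h S) ^ 2 N / h S + Q ^ 4 ∑_{S, S'} h S h S') = |A| (N G + Q ^ 4 G ^ 2)`. Divide by `|A| G`
(the case `G = 0` or `A = ∅` is trivial).
-/

namespace Pool.Agent.helper20.MPN

open Finset

open Pool.Agent.helper15.NT (crt_prod periodic_prod abs_sum_range_periodic sum_range_periodic_le)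

/-- admissible primes -/
structure SAdm (R : ℕ → Finset ℕ) (p : ℕ) : Prop where
  prime : p.Prime
  sub : R p ⊆ range p
  ne : (R p).Nonempty
  lt : (R p).card < p

/-- the local factor -/
noncomputable def Sgp (R : ℕ → Finset ℕ) (p n : ℕ) : ℝ :=
  if n % p ∈ R p then -(((p : ℝ) - (R p).card) / (R p).card) else 1

lemma Sgp_periodic (R : ℕ → Finset ℕ) (p : ℕ) : Function.Periodic (Sgp R p) p := by
  intro n
  unfold Sgp
  rw [Nat.add_mod_right]

lemma SAdm.pos {R : ℕ → Finset ℕ} {p : ℕ} (h : SAdm R p) : (1 : ℝ) ≤ (R p).card := by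
  have h1 : 0 < (R p).card := Finset.card_pos.2 h.ne
  exact_mod_cast h1

lemma SAdm.sub_pos {R : ℕ → Finset ℕ} {p : ℕ} (h : SAdm R p) : (0 : ℝ) < (p : ℝ) - (R p).card := by
  have h1 : ((R p).card : ℝ) < p := by exact_mod_cast h.lt
  linarith

lemma Ssum_gen {R : ℕ → Finset ℕ} {p : ℕ} (h : SAdm R p) (a b : ℝ) :
    ∑ u ∈ range p, (if u % p ∈ R p then a else b) = p * b + (R p).card * (a - b) := by
  have h1 : ∀ u ∈ range p, (if u % p ∈ R p then a else b) =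
      b + (if u ∈ R p then a - b else 0) := by
    intro u hu
    rw [Nat.mod_eq_of_lt (Finset.mem_range.mp hu)]
    split_ifs <;> ring
  rw [Finset.sum_congr rfl h1, Finset.sum_add_distrib, Finset.sum_const, Finset.card_range,
    Finset.sum_ite_mem, Finset.inter_eq_right.2 h.sub, Finset.sum_const, nsmul_eq_mul,
    nsmul_eq_mul]

lemma Ssum_gp {R : ℕ → Finset ℕ} {p : ℕ} (h : SAdm R p) : ∑ u ∈ range p, Sgp R p u = 0 := by
  unfold Sgp
  rw [Ssum_gen h]
  have h1 := h.pos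
  have h2 : ((R p).card : ℝ) ≠ 0 := by positivity
  field_simp
  ring

lemma Ssum_gp_sq {R : ℕ → Finset ℕ} {p : ℕ} (h : SAdm R p) :
    ∑ u ∈ range p, Sgp R p u * Sgp R p u = p * (((p : ℝ) - (R p).card) / (R p).card) := by
  have h0 : ∀ u, Sgp R p u * Sgp R p u =
      if u % p ∈ R p then (((p : ℝ) - (R p).card) / (R p).card) ^ 2 else 1 := by
    intro u
    unfold Sgp
    split_ifs <;> ring
  simp only [h0]
  rw [Ssum_gen h]
  have h1 := h.pos
  have h2 : ((R p).card : ℝ) ≠ 0 := by positivity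
  field_simp
  ring

lemma Sabs_gp_le {R : ℕ → Finset ℕ} {p : ℕ} (h : SAdm R p) (n : ℕ) : |Sgp R p n| ≤ p := by
  have h1 := h.pos
  have h2 := h.sub_pos
  have h3 : (1 : ℝ) ≤ p := by exact_mod_cast h.prime.one_lt.le
  unfold Sgp
  split_ifs
  · rw [abs_neg, abs_of_nonneg (div_nonneg h2.le (by linarith)), div_le_iff₀ (by linarith)]
    nlinarith
  · rw [abs_one]
    exact h3

/-- product over a set of primes -/
noncomputable def SgS (R : ℕ → Finset ℕ) (S : Finset ℕ) (n : ℕ) : ℝ := ∏ p ∈ S, Sgp R p n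

/-- weights -/
noncomputable def ShS (R : ℕ → Finset ℕ) (S : Finset ℕ) : ℝ :=
  ∏ p ∈ S, (((R p).card : ℝ) / ((p : ℝ) - (R p).card))

/-- product -/
def SqS (S : Finset ℕ) : ℕ := ∏ p ∈ S, p

lemma Sabs_gS_le {R : ℕ → Finset ℕ} {S : Finset ℕ} (hS : ∀ p ∈ S, SAdm R p) (n : ℕ) :
    |SgS R S n| ≤ SqS S := by
  unfold SgS SqS
  rw [Finset.abs_prod]
  push_cast
  exact Finset.prod_le_prod (fun p _ => abs_nonneg _) (fun p hp => Sabs_gp_le (hS p hp) n)

lemma ShS_pos {R : ℕ → Finset ℕ} {S : Finset ℕ} (h : ∀ p ∈ S, SAdm R p) : 0 < ShS R S := by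
  unfold ShS
  apply Finset.prod_pos
  intro p hp
  have h1 := (h p hp).pos
  exact div_pos (by linarith) (h p hp).sub_pos

lemma SqS_pos {R : ℕ → Finset ℕ} {S : Finset ℕ} (h : ∀ p ∈ S, SAdm R p) : 0 < SqS S :=
  Finset.prod_pos fun p hp => (h p hp).prime.pos

lemma SgS_mul {R : ℕ → Finset ℕ} (S S' : Finset ℕ) (n : ℕ) :
    SgS R S n * SgS R S' n = ∏ p ∈ S ∪ S',
      ((if p ∈ S then Sgp R p n else 1) * (if p ∈ S' then Sgp R p n else 1)) := by
  unfold SgS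
  rw [Finset.prod_mul_distrib, Finset.prod_ite_mem, Finset.prod_ite_mem]
  rw [Finset.union_inter_cancel_left, Finset.union_inter_cancel_right]

lemma Soffdiag {R : ℕ → Finset ℕ} {S S' : Finset ℕ} (h : ∀ p ∈ S, SAdm R p)
    (h' : ∀ p ∈ S', SAdm R p) (hne : S ≠ S') {Q : ℕ} (hQ : SqS S ≤ Q) (hQ' : SqS S' ≤ Q) (N : ℕ) :
    |∑ n ∈ range N, SgS R S n * SgS R S' n| ≤ (Q : ℝ) ^ 4 := by
  have hU : ∀ p ∈ S ∪ S', SAdm R p := by
    intro p hp
    rcases Finset.mem_union.mp hp with hp | hp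
    · exact h p hp
    · exact h' p hp
  set f : ℕ → ℕ → ℝ := fun p n =>
    ((if p ∈ S then Sgp R p n else 1) * (if p ∈ S' then Sgp R p n else 1)) with hf
  have hper : ∀ p ∈ S ∪ S', Function.Periodic (f p) p := by
    intro p _ n
    simp only [hf]
    rw [Sgp_periodic R p n]
  have hFper : Function.Periodic (fun n => SgS R S n * SgS R S' n) (∏ p ∈ S ∪ S', p) := by
    have := periodic_prod (S ∪ S') f hper
    intro n
    have := this n
    simp only [hf] at this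
    rw [← SgS_mul, ← SgS_mul] at this
    exact this
  have hzero : ∑ n ∈ range (∏ p ∈ S ∪ S', p), SgS R S n * SgS R S' n = 0 := by
    have h1 := crt_prod (S ∪ S') (fun p hp => (hU p hp).prime) f hper
    have h2 : ∑ n ∈ range (∏ p ∈ S ∪ S', p), SgS R S n * SgS R S' n =
        ∑ n ∈ range (∏ p ∈ S ∪ S', p), ∏ p ∈ S ∪ S', f p n :=
      Finset.sum_congr rfl fun n _ => SgS_mul S S' n
    rw [h2, h1]
    have hex : ∃ p ∈ S ∪ S', (p ∈ S ∧ p ∉ S') ∨ (p ∉ S ∧ p ∈ S') := by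
      by_contra hcon
      push Not at hcon
      apply hne
      ext p
      constructor
      · intro hp
        exact (hcon p (Finset.mem_union_left _ hp)).1 hp
      · intro hp
        by_contra hp'
        exact (hcon p (Finset.mem_union_right _ hp)).2 hp' hp
    obtain ⟨p, hpU, hp⟩ := hex
    apply Finset.prod_eq_zero hpU
    rcases hp with ⟨ha, hb⟩ | ⟨ha, hb⟩
    · simp only [hf, ha, hb, if_true, if_false, mul_one]
      exact Ssum_gp (hU p hpU)
    · simp only [hf, ha, hb, if_true, if_false, one_mul]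
      exact Ssum_gp (hU p hpU)
  have hUpos : 0 < ∏ p ∈ S ∪ S', p := Finset.prod_pos fun p hp => (hU p hp).prime.pos
  have hB : ∀ n, |SgS R S n * SgS R S' n| ≤ (Q : ℝ) ^ 2 := by
    intro n
    rw [abs_mul, sq]
    have a1 := (Sabs_gS_le h n).trans (by exact_mod_cast hQ : (SqS S : ℝ) ≤ Q)
    have a2 := (Sabs_gS_le h' n).trans (by exact_mod_cast hQ' : (SqS S' : ℝ) ≤ Q)
    exact mul_le_mul a1 a2 (abs_nonneg _) (by positivity)
  have hmain := abs_sum_range_periodic hUpos _ hFper N hzero ((Q : ℝ) ^ 2) hB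
  refine hmain.trans ?_
  have hL : ∏ p ∈ S ∪ S', p ≤ Q ^ 2 := by
    have e1 := Finset.prod_union_inter (s₁ := S) (s₂ := S') (f := fun p : ℕ => p)
    have e2 : 1 ≤ ∏ p ∈ S ∩ S', p := Finset.prod_pos fun p hp =>
      (h p (Finset.mem_of_mem_inter_left hp)).prime.pos
    calc ∏ p ∈ S ∪ S', p ≤ (∏ p ∈ S ∪ S', p) * ∏ p ∈ S ∩ S', p := Nat.le_mul_of_pos_right _ e2
      _ = SqS S * SqS S' := e1
      _ ≤ Q ^ 2 := by rw [sq]; exact Nat.mul_le_mul hQ hQ'
  have hL' : ((∏ p ∈ S ∪ S', p : ℕ) : ℝ) ≤ (Q : ℝ) ^ 2 := by exact_mod_cast hL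
  calc ((∏ p ∈ S ∪ S', p : ℕ) : ℝ) * (Q : ℝ) ^ 2 ≤ (Q : ℝ) ^ 2 * (Q : ℝ) ^ 2 := by gcongr
    _ = (Q : ℝ) ^ 4 := by ring

lemma Sdiag {R : ℕ → Finset ℕ} {S : Finset ℕ} (h : ∀ p ∈ S, SAdm R p) {Q : ℕ} (hQ : SqS S ≤ Q)
    (N : ℕ) : ∑ n ∈ range N, SgS R S n * SgS R S n ≤ N * (ShS R S)⁻¹ + (Q : ℝ) ^ 4 := by
  set f : ℕ → ℕ → ℝ := fun p n => Sgp R p n * Sgp R p n with hf
  have hper : ∀ p ∈ S, Function.Periodic (f p) p := by
    intro p _ n
    simp only [hf]
    rw [Sgp_periodic R p n]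
  have hmul : ∀ n, SgS R S n * SgS R S n = ∏ p ∈ S, f p n := by
    intro n
    unfold SgS
    rw [← Finset.prod_mul_distrib]
  have hFper : Function.Periodic (fun n => SgS R S n * SgS R S n) (SqS S) := by
    intro n
    have := periodic_prod S f hper n
    simp only at this
    rw [← hmul, ← hmul] at this
    exact this
  have hsum : ∑ n ∈ range (SqS S), SgS R S n * SgS R S n = (SqS S : ℕ) * (ShS R S)⁻¹ := by
    have h1 := crt_prod S (fun p hp => (h p hp).prime) f hper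
    have h2 : ∑ n ∈ range (SqS S), SgS R S n * SgS R S n =
        ∑ n ∈ range (∏ p ∈ S, p), ∏ p ∈ S, f p n :=
      Finset.sum_congr rfl fun n _ => hmul n
    rw [h2, h1]
    unfold SqS ShS
    rw [← Finset.prod_inv_distrib]
    push_cast
    rw [← Finset.prod_mul_distrib]
    refine Finset.prod_congr rfl fun p hp => ?_
    simp only [hf]
    rw [Ssum_gp_sq (h p hp), inv_div]
  have hB : ∀ n, |SgS R S n * SgS R S n| ≤ (Q : ℝ) ^ 2 := by
    intro n
    rw [abs_mul, sq]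
    have a1 := (Sabs_gS_le h n).trans (by exact_mod_cast hQ : (SqS S : ℝ) ≤ Q)
    exact mul_le_mul a1 a1 (abs_nonneg _) (by positivity)
  have hmain := sum_range_periodic_le (SqS_pos h) _ hFper N _ hsum
    (inv_nonneg.mpr (ShS_pos h).le) ((Q : ℝ) ^ 2) hB
  refine hmain.trans ?_
  have hQ1 : (1 : ℝ) ≤ Q := by
    exact_mod_cast (SqS_pos h).trans_le hQ
  have hQ2 : (SqS S : ℝ) ≤ (Q : ℝ) ^ 2 := by
    calc (SqS S : ℝ) ≤ Q := by exact_mod_cast hQ
      _ ≤ (Q : ℝ) ^ 2 := by nlinarith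
  have : (SqS S : ℝ) * (Q : ℝ) ^ 2 ≤ (Q : ℝ) ^ 4 := by
    calc (SqS S : ℝ) * (Q : ℝ) ^ 2 ≤ (Q : ℝ) ^ 2 * (Q : ℝ) ^ 2 := by gcongr
      _ = (Q : ℝ) ^ 4 := by ring
  linarith

/-- The sieve inequality. -/
theorem Ssieve {R : ℕ → Finset ℕ} (QQ : Finset (Finset ℕ)) (hQQ : ∀ S ∈ QQ, ∀ p ∈ S, SAdm R p)
    {Q : ℕ} (hQ : ∀ S ∈ QQ, SqS S ≤ Q) (N : ℕ) (A : Finset ℕ) (hA : A ⊆ range N)
    (hAs : ∀ n ∈ A, ∀ S ∈ QQ, ∀ p ∈ S, n % p ∉ R p) :
    (A.card : ℝ) * (∑ S ∈ QQ, ShS R S) ≤ N + (Q : ℝ) ^ 4 * ∑ S ∈ QQ, ShS R S := by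
  set G := ∑ S ∈ QQ, ShS R S with hGdef
  have hG0 : 0 ≤ G := Finset.sum_nonneg fun S hS => (ShS_pos (hQQ S hS)).le
  rcases hG0.eq_or_lt with hG | hG
  · rw [← hG]
    simp
  let T : ℕ → ℝ := fun n => ∑ S ∈ QQ, ShS R S * SgS R S n
  have hT : ∀ n ∈ A, T n = G := by
    intro n hn
    refine Finset.sum_congr rfl fun S hSQ => ?_
    have : SgS R S n = 1 := by
      unfold SgS
      apply Finset.prod_eq_one
      intro p hp
      have := hAs n hn S hSQ p hp
      unfold Sgp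
      rw [if_neg this]
    rw [this, mul_one]
  have h1 : (A.card : ℝ) * G ^ 2 ≤ ∑ n ∈ range N, T n ^ 2 := by
    calc (A.card : ℝ) * G ^ 2 = ∑ n ∈ A, T n ^ 2 := by
          rw [Finset.sum_congr rfl fun n hn => by rw [hT n hn]]
          rw [Finset.sum_const, nsmul_eq_mul]
      _ ≤ ∑ n ∈ range N, T n ^ 2 :=
          Finset.sum_le_sum_of_subset_of_nonneg hA (fun n _ _ => sq_nonneg _)
  have h2 : ∑ n ∈ range N, T n ^ 2 =
      ∑ S ∈ QQ, ∑ S' ∈ QQ, ShS R S * ShS R S' * ∑ n ∈ range N, SgS R S n * SgS R S' n := by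
    have e1 : ∀ n, T n ^ 2 =
        ∑ S ∈ QQ, ∑ S' ∈ QQ, ShS R S * ShS R S' * (SgS R S n * SgS R S' n) := by
      intro n
      simp only [T]
      rw [sq, Finset.sum_mul_sum]
      refine Finset.sum_congr rfl fun S _ => Finset.sum_congr rfl fun S' _ => ?_
      ring
    simp only [e1]
    rw [Finset.sum_comm]
    refine Finset.sum_congr rfl fun S _ => ?_
    rw [Finset.sum_comm]
    refine Finset.sum_congr rfl fun S' _ => ?_
    rw [Finset.mul_sum]
  have h3 : ∀ S ∈ QQ, ∀ S' ∈ QQ,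
      ShS R S * ShS R S' * ∑ n ∈ range N, SgS R S n * SgS R S' n ≤
      ShS R S * ShS R S' * (Q : ℝ) ^ 4 + (if S = S' then N * ShS R S else 0) := by
    intro S hSm S' hSm'
    have p1 := ShS_pos (hQQ S hSm)
    have p2 := ShS_pos (hQQ S' hSm')
    by_cases he : S = S'
    · subst he
      rw [if_pos rfl]
      have := Sdiag (hQQ S hSm) (hQ S hSm) N
      calc ShS R S * ShS R S * ∑ n ∈ range N, SgS R S n * SgS R S n ≤
          ShS R S * ShS R S * (N * (ShS R S)⁻¹ + (Q : ℝ) ^ 4) := by gcongr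
        _ = ShS R S * ShS R S * (Q : ℝ) ^ 4 + N * ShS R S := by
          field_simp
          ring
    · rw [if_neg he, add_zero]
      have := Soffdiag (hQQ S hSm) (hQQ S' hSm') he (hQ S hSm) (hQ S' hSm') N
      have h4 := (le_abs_self _).trans this
      gcongr
  have h4 : ∑ n ∈ range N, T n ^ 2 ≤ G ^ 2 * (Q : ℝ) ^ 4 + N * G := by
    rw [h2]
    calc ∑ S ∈ QQ, ∑ S' ∈ QQ, ShS R S * ShS R S' * ∑ n ∈ range N, SgS R S n * SgS R S' n ≤
        ∑ S ∈ QQ, ∑ S' ∈ QQ,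
          (ShS R S * ShS R S' * (Q : ℝ) ^ 4 + (if S = S' then N * ShS R S else 0)) :=
          Finset.sum_le_sum fun S hSm => Finset.sum_le_sum fun S' hSm' => h3 S hSm S' hSm'
      _ = G ^ 2 * (Q : ℝ) ^ 4 + N * G := by
        simp only [Finset.sum_add_distrib]
        congr 1
        · rw [hGdef, sq, Finset.sum_mul_sum, Finset.sum_mul]
          refine Finset.sum_congr rfl fun S _ => ?_
          rw [Finset.sum_mul]
        · rw [hGdef, Finset.mul_sum]
          refine Finset.sum_congr rfl fun S hSm => ?_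
          rw [Finset.sum_ite_eq, if_pos hSm]
  have h5 : (A.card : ℝ) * G ^ 2 ≤ G ^ 2 * (Q : ℝ) ^ 4 + N * G := h1.trans h4
  have h6 : G * ((A.card : ℝ) * G) ≤ G * (N + (Q : ℝ) ^ 4 * G) := by
    calc G * ((A.card : ℝ) * G) = (A.card : ℝ) * G ^ 2 := by ring
      _ ≤ G ^ 2 * (Q : ℝ) ^ 4 + N * G := h5
      _ = G * (N + (Q : ℝ) ^ 4 * G) := by ring
  exact le_of_mul_le_mul_left h6 hG

theorem gsieve (P : Finset ℕ) (hP : ∀ p ∈ P, p.Prime) (R : ℕ → Finset ℕ)
    (hR : ∀ p ∈ P, R p ⊆ range p) (h0 : ∀ p ∈ P, (R p).Nonempty) (h1 : ∀ p ∈ P, (R p).card < p)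
    (Q N : ℕ) (A : Finset ℕ) (hA : A ⊆ range N) (hAs : ∀ n ∈ A, ∀ p ∈ P, n % p ∉ R p) :
    (A.card : ℝ) * gG P R Q ≤ N + (Q : ℝ) ^ 4 * gG P R Q := by
  have hsub : ∀ S ∈ P.powerset.filter (fun S => ∏ p ∈ S, p ≤ Q), S ⊆ P := by
    intro S hS
    exact Finset.mem_powerset.1 (Finset.mem_filter.1 hS).1
  exact Ssieve (R := R) (P.powerset.filter (fun S => ∏ p ∈ S, p ≤ Q))
    (fun S hS p hp => ⟨hP p (hsub S hS hp), hR p (hsub S hS hp), h0 p (hsub S hS hp),
      h1 p (hsub S hS hp)⟩)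
    (fun S hS => (Finset.mem_filter.1 hS).2) N A hA
    (fun n hn S hS p hp => hAs n hn p (hsub S hS hp))

end Pool.Agent.helper20.MPN
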